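import Pool.Agent.Work.MP_98601e_ag.Global

/-!
Odd characteristic: the coefficients `(1/2, 1/2, 1/2)` are good.
-/

open MvPolynomial

set_option linter.unusedSectionVars false

namespace Pool.Agent.MP98601e

section Closed

variable {K : Type*} [Field K]

/-- `u = (a² - b²)²` -/
noncomputable def uu : MvPolynomial (Fin 2) K := (X 0 ^ 2 - X 1 ^ 2) ^ 2
/-- `v = 4 a² b²` -/
noncomputable def vv : MvPolynomial (Fin 2) K := 4 * X 0 ^ 2 * X 1 ^ 2
/-- `θ = 2 a b (a⁴ - b⁴)` -/
noncomputable def th : MvPolynomial (Fin 2) K := 2 * X 0 * X 1 * (X 0 ^ 4 - X 1 ^ 4)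

lemma th_sq : (th : MvPolynomial (Fin 2) K) ^ 2 = uu * vv * (uu + vv) := by
  unfold th uu vv
  ring

lemma uu_hom : (uu : MvPolynomial (Fin 2) K).IsHomogeneous 4 := by
  have h := ((((isHomogeneous_X K (0 : Fin 2)).pow 2).sub ((isHomogeneous_X K 1).pow 2)).pow 2)
  simpa [uu] using h

lemma vv_hom : (vv : MvPolynomial (Fin 2) K).IsHomogeneous 4 := by
  have h := ((isHomogeneous_C (Fin 2) (4 : K)).mul ((isHomogeneous_X K (0 : Fin 2)).pow 2)).mul
    ((isHomogeneous_X K 1).pow 2)
  have h4 : (C (4 : K) : MvPolynomial (Fin 2) K) = 4 := by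
    rw [show (4 : K) = ((4 : ℕ) : K) by norm_num, map_natCast]; norm_num
  rw [h4] at h
  simpa [vv] using h

lemma uu_eq : (uu : MvPolynomial (Fin 2) K) =
    monomial (ex 4 0) 1 - monomial (ex 2 2) 2 + monomial (ex 0 4) 1 := by
  rw [monomial_ex, monomial_ex, monomial_ex, uu, C_1]
  have h2 : (C (2 : K) : MvPolynomial (Fin 2) K) = 2 := by
    rw [show (2 : K) = ((2 : ℕ) : K) by norm_num, map_natCast]; norm_num
  rw [h2]
  ring

lemma vv_eq : (vv : MvPolynomial (Fin 2) K) = monomial (ex 2 2) 4 := by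
  rw [monomial_ex, vv]
  have h4 : (C (4 : K) : MvPolynomial (Fin 2) K) = 4 := by
    rw [show (4 : K) = ((4 : ℕ) : K) by norm_num, map_natCast]; norm_num
  rw [h4]
  ring

lemma th_eq : (th : MvPolynomial (Fin 2) K) = monomial (ex 5 1) 2 - monomial (ex 1 5) 2 := by
  rw [monomial_ex, monomial_ex, th]
  have h2 : (C (2 : K) : MvPolynomial (Fin 2) K) = 2 := by
    rw [show (2 : K) = ((2 : ℕ) : K) by norm_num, map_natCast]; norm_num
  rw [h2]
  ring

lemma ex_le {i j i' j' : ℕ} : ex i j ≤ ex i' j' ↔ i ≤ i' ∧ j ≤ j' := by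
  rw [Finsupp.le_def]
  constructor
  · intro h
    exact ⟨by simpa using h 0, by simpa using h 1⟩
  · rintro ⟨h1, h2⟩ i
    fin_cases i
    · simpa using h1
    · simpa using h2

/-- `θ` is not in the ideal `(u, v)`. -/
lemma th_not_mem (h2 : (4 : K) ≠ 0) (s1 s2 : MvPolynomial (Fin 2) K) : th ≠ uu * s1 + vv * s2 := by
  intro h
  rw [th_eq, uu_eq, vv_eq] at h
  have c1 := congrArg (coeff (ex 5 1)) h
  have c2 := congrArg (coeff (ex 1 5)) h
  simp only [coeff_sub, coeff_add, add_mul, sub_mul, coeff_monomial_mul', coeff_monomial,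
    ex_inj, ex_le] at c1 c2
  have e1 : ex 5 1 - ex 4 0 = ex 1 1 := by ext i; fin_cases i <;> simp
  have e2 : ex 1 5 - ex 0 4 = ex 1 1 := by ext i; fin_cases i <;> simp
  rw [e1] at c1
  rw [e2] at c2
  norm_num at c1 c2
  apply h2
  linear_combination c1 - c2

variable [IsAlgClosed K]

lemma uv_surj (h2 : (2 : K) ≠ 0) (x y : K) : ∃ a b : K, (a ^ 2 - b ^ 2) ^ 2 = x ∧
    4 * a ^ 2 * b ^ 2 = y := by
  obtain ⟨s, hs⟩ := IsAlgClosed.exists_pow_nat_eq x (show 0 < 2 by norm_num)
  obtain ⟨w, hw⟩ := IsAlgClosed.exists_pow_nat_eq (x + y) (show 0 < 2 by norm_num)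
  obtain ⟨a, ha⟩ := IsAlgClosed.exists_pow_nat_eq ((w + s) / 2) (show 0 < 2 by norm_num)
  obtain ⟨b, hb⟩ := IsAlgClosed.exists_pow_nat_eq ((w - s) / 2) (show 0 < 2 by norm_num)
  refine ⟨a, b, ?_, ?_⟩
  · rw [ha, hb, ← hs]
    field_simp
    ring
  · rw [ha, hb]
    field_simp
    linear_combination 4 * hw - 4 * hs

/-- pull back along `(u, v)` -/
noncomputable def pull : MvPolynomial (Fin 2) K →ₐ[K] MvPolynomial (Fin 2) K := aeval ![uu, vv]

omit [IsAlgClosed K] in
lemma eval_aeval_mv (g : Fin 2 → MvPolynomial (Fin 2) K) (r : Fin 2 → K)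
    (f : MvPolynomial (Fin 2) K) :
    eval r (aeval g f) = eval (fun i => eval r (g i)) f := by
  have h := comp_aeval_apply (f := g) (aeval r : MvPolynomial (Fin 2) K →ₐ[K] K) f
  simpa using h

omit [IsAlgClosed K] in
lemma eval_pull (a b : K) (f : MvPolynomial (Fin 2) K) :
    eval ![a, b] (pull f) = eval ![(a ^ 2 - b ^ 2) ^ 2, 4 * a ^ 2 * b ^ 2] f := by
  rw [pull, eval_aeval_mv]
  congr 2
  ext i
  fin_cases i
  · simp [uu]
  · simp [vv]

lemma pull_ne_zero (h2 : (2 : K) ≠ 0) {f : MvPolynomial (Fin 2) K} (hf : f ≠ 0) :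
    pull f ≠ 0 := by
  intro h
  apply hf
  apply MvPolynomial.funext
  intro r
  obtain ⟨a, b, ha, hb⟩ := uv_surj h2 (r 0) (r 1)
  have h1 := congrArg (eval ![a, b]) h
  rw [map_zero, eval_pull, ha, hb] at h1
  rw [map_zero, ← h1]
  congr 2
  ext i
  fin_cases i <;> rfl

omit [IsAlgClosed K] in
lemma pull_hom {f : MvPolynomial (Fin 2) K} {d : ℕ} (hf : f.IsHomogeneous d) :
    (pull f).IsHomogeneous (4 * d) := by
  apply hf.aeval
  intro i
  fin_cases i
  · exact uu_hom
  · exact vv_hom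

/-- the linear substitution `a ↦ r(a + b)`, `b ↦ a - b` -/
noncomputable def lin (r : K) (hr : r ≠ 0) (h2 : (2 : K) ≠ 0) :
    MvPolynomial (Fin 2) K ≃ₐ[K] MvPolynomial (Fin 2) K :=
  AlgEquiv.ofAlgHom (aeval ![C r * (X 0 + X 1), X 0 - X 1])
    (aeval ![C (1 / 2) * (C r⁻¹ * X 0 + X 1), C (1 / 2) * (C r⁻¹ * X 0 - X 1)])
    (by
      apply algHom_ext
      intro i
      have e1 : (C (1 / 2 : K) * 2 : MvPolynomial (Fin 2) K) = 1 := by
        rw [show (2 : MvPolynomial (Fin 2) K) = C 2 by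
          rw [show (2 : K) = ((2 : ℕ) : K) by norm_num, map_natCast]; norm_num, ← C_mul]
        rw [one_div, inv_mul_cancel₀ h2, C_1]
      have e2 : (C r⁻¹ * C r : MvPolynomial (Fin 2) K) = 1 := by
        rw [← C_mul, inv_mul_cancel₀ hr, C_1]
      fin_cases i
      · simp only [Fin.zero_eta, AlgHom.comp_apply, aeval_X, Matrix.cons_val_zero, map_mul,
          map_add, algHom_C, Matrix.cons_val_one, AlgHom.coe_id, id, MvPolynomial.algebraMap_eq]
        linear_combination (X 0 : MvPolynomial (Fin 2) K) * e1 +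
          C (1 / 2 : K) * (X 0 + X 1) * e2
      · simp only [Fin.mk_one, AlgHom.comp_apply, aeval_X, Matrix.cons_val_zero, map_mul,
          map_sub, algHom_C, Matrix.cons_val_one, AlgHom.coe_id, id, MvPolynomial.algebraMap_eq]
        linear_combination (X 1 : MvPolynomial (Fin 2) K) * e1 +
          C (1 / 2 : K) * (X 0 + X 1) * e2)
    (by
      apply algHom_ext
      intro i
      have e1 : (C (1 / 2 : K) * 2 : MvPolynomial (Fin 2) K) = 1 := by
        rw [show (2 : MvPolynomial (Fin 2) K) = C 2 by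
          rw [show (2 : K) = ((2 : ℕ) : K) by norm_num, map_natCast]; norm_num, ← C_mul]
        rw [one_div, inv_mul_cancel₀ h2, C_1]
      have e2 : (C r⁻¹ * C r : MvPolynomial (Fin 2) K) = 1 := by
        rw [← C_mul, inv_mul_cancel₀ hr, C_1]
      fin_cases i
      · simp only [Fin.zero_eta, AlgHom.comp_apply, aeval_X, Matrix.cons_val_zero, map_mul,
          map_add, algHom_C, Matrix.cons_val_one, AlgHom.coe_id, id, MvPolynomial.algebraMap_eq]
        linear_combination (X 0 : MvPolynomial (Fin 2) K) * e1 +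
          C (1 / 2 : K) * 2 * X 0 * e2
      · simp only [Fin.mk_one, AlgHom.comp_apply, aeval_X, Matrix.cons_val_zero,
          map_sub, Matrix.cons_val_one, AlgHom.coe_id, id]
        linear_combination (X 1 : MvPolynomial (Fin 2) K) * e1)

lemma lin_apply (r : K) (hr : r ≠ 0) (h2 : (2 : K) ≠ 0) (f : MvPolynomial (Fin 2) K) :
    lin r hr h2 f = aeval ![C r * (X 0 + X 1), X 0 - X 1] f := rfl

omit [IsAlgClosed K] in
lemma eval_one_zero {g : MvPolynomial (Fin 2) K} {n : ℕ} (hg : g.IsHomogeneous n) :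
    eval ![1, 0] g = coeff (ex n 0) g := by
  rw [eval_eq']
  rw [Finset.sum_eq_single (ex n 0)]
  · simp [Fin.prod_univ_two]
  · intro b hb hbn
    have h := homog_exp hg (mem_support_iff.mp hb)
    have h1 : b 1 ≠ 0 := by
      intro h1
      apply hbn
      rw [eq_ex b, ex_inj]
      exact ⟨by omega, h1⟩
    simp [Fin.prod_univ_two, h1]
  · intro h
    rw [notMem_support_iff.mp h, zero_mul]

omit [IsAlgClosed K] in
lemma eval_zero_one {g : MvPolynomial (Fin 2) K} {n : ℕ} (hg : g.IsHomogeneous n) :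
    eval ![0, 1] g = coeff (ex 0 n) g := by
  rw [eval_eq']
  rw [Finset.sum_eq_single (ex 0 n)]
  · simp [Fin.prod_univ_two]
  · intro b hb hbn
    have h := homog_exp hg (mem_support_iff.mp hb)
    have h1 : b 0 ≠ 0 := by
      intro h1
      apply hbn
      rw [eq_ex b, ex_inj]
      exact ⟨h1, by omega⟩
    simp [Fin.prod_univ_two, h1]
  · intro h
    rw [notMem_support_iff.mp h, zero_mul]

lemma exists_root {g : MvPolynomial (Fin 2) K} {n : ℕ} (hn : 0 < n) (hg : g.IsHomogeneous n)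
    (h1 : coeff (ex n 0) g ≠ 0) (h2 : coeff (ex 0 n) g ≠ 0) :
    ∃ r : K, r ≠ 0 ∧ eval ![r, 1] g = 0 := by
  let P : Polynomial K := aeval ![Polynomial.X, 1] g
  have hP : ∀ r : K, P.eval r = eval ![r, 1] g := by
    intro r
    have h := comp_aeval_apply (f := ![(Polynomial.X : Polynomial K), 1])
      (Polynomial.aeval r : Polynomial K →ₐ[K] K) g
    have h' : (fun i => (Polynomial.aeval r : Polynomial K →ₐ[K] K)
        (![(Polynomial.X : Polynomial K), 1] i)) = ![r, 1] := by
      ext i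
      fin_cases i <;> simp
    rw [h'] at h
    simpa [P] using h
  have hcoeff : P.coeff n = coeff (ex n 0) g := by
    show (aeval ![(Polynomial.X : Polynomial K), 1] g : Polynomial K).coeff n = _
    rw [aeval_def, eval₂_eq']
    rw [Polynomial.finsetSum_coeff, Finset.sum_eq_single (ex n 0)]
    · simp [Fin.prod_univ_two]
    · intro b hb hbn
      have h := homog_exp hg (mem_support_iff.mp hb)
      have h1 : n ≠ b 0 := by
        intro h1
        apply hbn
        rw [eq_ex b, ex_inj]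
        exact ⟨h1.symm, by omega⟩
      simp [Fin.prod_univ_two, Polynomial.coeff_X_pow, h1]
    · intro h
      exact absurd (notMem_support_iff.mp h) h1
  have hdeg : P.degree ≠ 0 := by
    intro h0
    have : P.coeff n = 0 := Polynomial.coeff_eq_zero_of_degree_lt (by rw [h0]; exact_mod_cast hn)
    exact h1 (hcoeff.symm.trans this)
  obtain ⟨r, hr⟩ := IsAlgClosed.exists_root P hdeg
  refine ⟨r, ?_, ?_⟩
  · rintro rfl
    rw [Polynomial.IsRoot.def, hP, eval_zero_one hg] at hr
    exact h2 hr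
  · rw [← hP]; exact hr

lemma exists_subst (h2 : (2 : K) ≠ 0) {f : MvPolynomial (Fin 2) K} {d : ℕ} (hd : 0 < d)
    (hf0 : f ≠ 0) (hf : f.IsHomogeneous d) :
    ∃ ψ : MvPolynomial (Fin 2) K ≃ₐ[K] MvPolynomial (Fin 2) K,
      (ψ (pull f)).IsHomogeneous (4 * d) ∧ coeff (ex (4 * d) 0) (ψ (pull f)) = 0 ∧
      coeff (ex 0 (4 * d)) (ψ (pull f)) = 0 := by
  have hhom := pull_hom hf
  have h01 : eval ![0, 1] (pull f) = eval ![1, 0] (pull f) := by
    rw [eval_pull, eval_pull]
    norm_num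
  by_cases h : coeff (ex (4 * d) 0) (pull f) = 0
  · refine ⟨AlgEquiv.refl, hhom, h, ?_⟩
    rw [AlgEquiv.coe_refl, id, ← eval_zero_one hhom, h01, eval_one_zero hhom, h]
  · have h' : coeff (ex 0 (4 * d)) (pull f) ≠ 0 := by
      rw [← eval_zero_one hhom, h01, eval_one_zero hhom]; exact h
    obtain ⟨r, hr, hroot⟩ := exists_root (by omega : 0 < 4 * d) hhom h h'
    have hh : (lin r hr h2 (pull f)).IsHomogeneous (4 * d) := by
      rw [lin_apply]
      have := hhom.aeval (g := (![C r * (X 0 + X 1), X 0 - X 1] : Fin 2 →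
        MvPolynomial (Fin 2) K)) (n := 1) (by
        intro i
        fin_cases i
        · have := (isHomogeneous_C (Fin 2) r).mul
            ((isHomogeneous_X K (0 : Fin 2)).add (isHomogeneous_X K 1))
          simpa using this
        · exact (isHomogeneous_X K (0 : Fin 2)).sub (isHomogeneous_X K 1))
      simpa using this
    refine ⟨lin r hr h2, hh, ?_, ?_⟩
    · rw [← eval_one_zero hh, lin_apply, eval_aeval_mv]
      have e1 : (fun i => eval ![1, 0] (![C r * (X 0 + X 1), X 0 - X 1] i :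
          MvPolynomial (Fin 2) K)) = ![r, 1] := by
        ext i; fin_cases i <;> simp
      rw [e1, hroot]
    · rw [← eval_zero_one hh, lin_apply, eval_aeval_mv]
      have e1 : (fun i => eval ![0, 1] (![C r * (X 0 + X 1), X 0 - X 1] i :
          MvPolynomial (Fin 2) K)) = ![r, -1] := by
        ext i; fin_cases i <;> simp
      rw [e1]
      rw [eval_pull] at hroot ⊢
      rw [← hroot]
      norm_num

omit [IsAlgClosed K] in
/-- powers of a form without pure powers have small exponents -/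
lemma small_of_pow {g : MvPolynomial (Fin 2) K} {n : ℕ} (hn : 0 < n) (hg : g.IsHomogeneous n)
    (h1 : coeff (ex n 0) g = 0) (h2 : coeff (ex 0 n) g = 0) (N : ℕ) (m : Fin 2 →₀ ℕ)
    (hm : coeff m (g ^ N) ≠ 0) : m 0 ≤ N * (n - 1) ∧ m 1 ≤ N * (n - 1) := by
  have key : ∀ b ∈ g.support, b 0 ≤ n - 1 ∧ b 1 ≤ n - 1 := by
    intro b hb
    have hb' := mem_support_iff.mp hb
    have h := homog_exp hg hb'
    have h0 : b 1 ≠ 0 := by
      intro h0
      apply hb'
      rw [eq_ex b, h0, show b 0 = n by omega]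
      exact h1
    have h0' : b 0 ≠ 0 := by
      intro h0
      apply hb'
      rw [eq_ex b, h0, show b 1 = n by omega]
      exact h2
    omega
  have hm' := mem_support_iff.mpr hm
  constructor
  · exact (monomial_le_degreeOf 0 hm').trans ((degreeOf_pow_le 0 g N).trans
      (Nat.mul_le_mul_left _ (degreeOf_le_iff.mpr (fun b hb => (key b hb).1))))
  · exact (monomial_le_degreeOf 1 hm').trans ((degreeOf_pow_le 1 g N).trans
      (Nat.mul_le_mul_left _ (degreeOf_le_iff.mpr (fun b hb => (key b hb).2))))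

/-- The main non-membership statement. -/
theorem not_mem (p : ℕ) [Fact p.Prime] [CharP K p] [PerfectRing K p] (hp2 : p ≠ 2)
    {f : MvPolynomial (Fin 2) K} {d : ℕ} (hd : 0 < d) (hf0 : f ≠ 0) (hf : f.IsHomogeneous d)
    (e N A : ℕ) (hA : 2 * A + 1 = p ^ e) (hN : N * (4 * d - 1) < p ^ e)
    (α β : MvPolynomial (Fin 2) K) :
    X 0 ^ A * X 1 ^ A * (X 0 + X 1) ^ A * f ^ N ≠ X 0 ^ p ^ e * α + X 1 ^ p ^ e * β := by
  have h2 : (2 : K) ≠ 0 := by
    intro h
    have h' : ((2 : ℕ) : K) = 0 := by exact_mod_cast h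
    rw [CharP.cast_eq_zero_iff K p] at h'
    exact hp2 ((Nat.prime_dvd_prime_iff_eq Fact.out Nat.prime_two).mp h')
  have h4 : (4 : K) ≠ 0 := by
    have : (4 : K) = 2 * 2 := by norm_num
    rw [this]; exact mul_ne_zero h2 h2
  intro heq
  obtain ⟨ψ, hψhom, hψ1, hψ2⟩ := exists_subst h2 hd hf0 hf
  set g := ψ (pull f) with hg
  have hg0 : g ≠ 0 := by
    rw [hg]
    intro h
    exact pull_ne_zero h2 hf0 ((map_eq_zero_iff ψ ψ.injective).mp h)
  have hgN : g ^ N ≠ 0 := pow_ne_zero _ hg0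
  obtain ⟨m, hm⟩ := MvPolynomial.ne_zero_iff.mp hgN
  obtain ⟨hm0, hm1⟩ := small_of_pow (by omega : 0 < 4 * d) hψhom hψ1 hψ2 N m hm
  obtain ⟨φ, hφ, hφg, -⟩ := exists_functional p e (g ^ N) _ (hψhom.pow N) m hm
    (hm0.trans_lt hN) (hm1.trans_lt hN)
  -- pull back and multiply by `θ`
  have e1 := congrArg (fun z => th * pull z) heq
  simp only [map_mul, map_pow, map_add] at e1
  have hx : pull (X 0 : MvPolynomial (Fin 2) K) = uu := by simp [pull]
  have hy : pull (X 1 : MvPolynomial (Fin 2) K) = vv := by simp [pull]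
  rw [hx, hy] at e1
  have e2 : th ^ p ^ e * pull f ^ N = uu ^ p ^ e * (th * pull α) + vv ^ p ^ e * (th * pull β) := by
    have e3 : (th : MvPolynomial (Fin 2) K) ^ p ^ e = th * (uu ^ A * vv ^ A * (uu + vv) ^ A) := by
      rw [← hA, pow_succ, pow_mul, th_sq, mul_pow, mul_pow]
      ring
    rw [e3]
    linear_combination e1
  have e4 := congrArg (fun z => φ (ψ z)) e2
  simp only [map_mul, map_pow, map_add] at e4
  rw [← hg] at e4
  rw [hφ, hφ, hφ, hφg, mul_one] at e4
  have e5 := congrArg ψ.symm e4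
  simp only [map_mul, map_add, AlgEquiv.symm_apply_apply] at e5
  exact th_not_mem h4 _ _ e5

end Closed

/-- Odd characteristic: `(1/2, 1/2, 1/2)` is good. -/
theorem good_odd (k : Type*) [Field k] (p : ℕ) [Fact p.Prime] [CharP k p] [PerfectRing k p]
    (hp2 : p ≠ 2) : Good k p (fun _ => 1 / 2) := by
  intro d f hd hf0 hf
  have hp1 : 1 < p := (Fact.out : p.Prime).one_lt
  obtain ⟨e, he⟩ := pow_unbounded_of_one_lt ((4 * d - 1) ^ 2 + 1) hp1
  set q := p ^ e with hq
  have he0 : 0 < e := by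
    rcases Nat.eq_zero_or_pos e with h | h
    · rw [h, pow_zero] at hq; omega
    · exact h
  have hodd : q % 2 = 1 := by
    have : p % 2 = 1 := ((Fact.out : p.Prime).eq_two_or_odd).resolve_left hp2
    rw [hq, Nat.pow_mod, this]; simp
  set A := q / 2 with hA
  have hA2 : 2 * A + 1 = q := by omega
  set N := (q + (4 * d - 1)) / (4 * d) with hN
  have hN1 : q ≤ 4 * d * N := by
    have h1 := Nat.div_add_mod (q + (4 * d - 1)) (4 * d)
    have h2 := Nat.mod_lt (q + (4 * d - 1)) (show 0 < 4 * d by omega)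
    rw [← hN] at h1
    omega
  have hN2 : 4 * d * N ≤ q + (4 * d - 1) := Nat.mul_div_le _ _
  have hN3 : N * (4 * d - 1) < q := by
    by_contra hcon
    push Not at hcon
    have h1 : 4 * d * (N * (4 * d - 1)) ≤ (q + (4 * d - 1)) * (4 * d - 1) := by
      calc 4 * d * (N * (4 * d - 1)) = (4 * d * N) * (4 * d - 1) := by ring
        _ ≤ (q + (4 * d - 1)) * (4 * d - 1) := Nat.mul_le_mul_right _ hN2
    have h2 : 4 * d * q ≤ 4 * d * (N * (4 * d - 1)) := Nat.mul_le_mul_left _ hcon
    obtain ⟨t, ht⟩ : ∃ t, 4 * d = t + 1 := ⟨4 * d - 1, by omega⟩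
    rw [ht] at h1 h2 he
    simp only [Nat.add_sub_cancel] at h1 h2 he
    nlinarith
  refine ⟨e, N, fun _ => A, he0, ?_, ?_, ?_⟩
  · intro i
    have : (q : ℚ) = 2 * A + 1 := by exact_mod_cast hA2.symm
    have h2 : (p : ℚ) ^ e = q := by rw [hq]; push_cast; rfl
    rw [h2, this]
    ring
  · have h2 : (p : ℚ) ^ e = q := by rw [hq]; push_cast; rfl
    rw [h2]
    have h3 : (q : ℚ) ≤ 4 * d * N := by exact_mod_cast hN1
    nlinarith
  · apply exists_small
    rintro ⟨a, b, hab⟩
    let K := AlgebraicClosure k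
    have : CharP K p := charP_of_injective_algebraMap (algebraMap k K).injective p
    have hinj := (algebraMap k K).injective
    have h1 := congrArg (MvPolynomial.map (algebraMap k K)) hab
    simp only [map_mul, map_pow, map_add, map_X] at h1
    exact not_mem (K := K) p hp2 hd
      ((map_ne_zero_iff _ (MvPolynomial.map_injective _ hinj)).mpr hf0)
      (hf.map _) e N A hA2 hN3 _ _ h1

end Pool.Agent.MP98601e
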