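import Mathlib

/-!
Characteristic two: the algebra of one step of the recursion.
`D = x⁶ y⁵ (x+y)³`, `N = [[y⁵(x²+xy+y²), y⁶(x+y)], [x⁷, x⁶(x+y)]]`.
-/

set_option linter.unusedSectionVars false

namespace Pool.Agent.MP98601e

section Alg

variable {S : Type*} [CommRing S] [IsDomain S] [CharP S 2]

lemma add_pow16 (a b : S) : (a + b) ^ 16 = a ^ 16 + b ^ 16 := by
  have := add_pow_char_pow (p := 2) (n := 4) a b
  simpa using this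

lemma two_zero : (2 : S) = 0 := CharTwo.two_eq_zero

variable {x y : S}

/-- the data of three distinct points -/
structure Three (x y : S) : Prop where
  hx : Prime x
  hy : Prime y
  hz : Prime (x + y)
  hxy : ¬ x ∣ y
  hyx : ¬ y ∣ x
  hzx : ¬ (x + y) ∣ x
  hzy : ¬ (x + y) ∣ y

/-- the recursion -/
structure Rec (x y a b a' b' : S) : Prop where
  h1 : x ^ 6 * y ^ 5 * (x + y) ^ 3 * a' =
    a ^ 16 * (y ^ 5 * (x ^ 2 + x * y + y ^ 2)) + b ^ 16 * x ^ 7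
  h2 : x ^ 6 * y ^ 5 * (x + y) ^ 3 * b' =
    a ^ 16 * (y ^ 6 * (x + y)) + b ^ 16 * (x ^ 6 * (x + y))

/-- the conditions at the three points -/
structure Pts (x y a b : S) : Prop where
  a0 : x ∣ a
  b0 : y ∣ b
  c0 : x + y ∣ a + b
  na : ¬ y ∣ a
  nb : ¬ x ∣ b
  nc : ¬ (x + y) ∣ a

lemma id1 : y ^ 5 * (x ^ 2 + x * y + y ^ 2) + x ^ 7 =
    (x + y) ^ 3 * (x ^ 4 + x ^ 3 * y + y ^ 4) := by
  have h2 : (2 : S) = 0 := two_zero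
  linear_combination ((-1)*x*y ^ 6 + (-1)*x ^ 2*y ^ 5 + (-1)*x ^ 3*y ^ 4 + (-2)*x ^ 4*y ^ 3 +
    (-3)*x ^ 5*y ^ 2 + (-2)*x ^ 6*y) * h2

lemma id2 : y ^ 6 * (x + y) + x ^ 6 * (x + y) =
    (x + y) ^ 3 * (x ^ 4 + x ^ 2 * y ^ 2 + y ^ 4) := by
  have h2 : (2 : S) = 0 := two_zero
  linear_combination ((-1)*x*y ^ 6 + (-2)*x ^ 2*y ^ 5 + (-2)*x ^ 3*y ^ 4 + (-2)*x ^ 4*y ^ 3 +
    (-2)*x ^ 5*y ^ 2 + (-1)*x ^ 6*y) * h2

lemma id3 : y ^ 5 * (x ^ 2 + x * y + y ^ 2) + y ^ 6 * (x + y) + x ^ 7 + x ^ 6 * (x + y) =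
    (x + y) ^ 4 * (x ^ 2 * y) := by
  have h2 : (2 : S) = 0 := two_zero
  linear_combination (x*y ^ 6 + (-2)*x ^ 3*y ^ 4 + (-3)*x ^ 4*y ^ 3 + (-2)*x ^ 5*y ^ 2 +
    x ^ 7 + y ^ 7) * h2

namespace Three

variable (T : Three x y)
include T

lemma hxz : ¬ x ∣ x + y := fun h => T.hxy ((dvd_add_right (dvd_refl x)).mp h)

lemma hyz : ¬ y ∣ x + y := fun h => T.hyx ((dvd_add_left (dvd_refl y)).mp h)

lemma D_ne : x ^ 6 * y ^ 5 * (x + y) ^ 3 ≠ 0 :=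
  mul_ne_zero (mul_ne_zero (pow_ne_zero _ T.hx.ne_zero) (pow_ne_zero _ T.hy.ne_zero))
    (pow_ne_zero _ T.hz.ne_zero)

lemma D_dvd {G : S} (h1 : x ^ 6 ∣ G) (h2 : y ^ 5 ∣ G) (h3 : (x + y) ^ 3 ∣ G) :
    x ^ 6 * y ^ 5 * (x + y) ^ 3 ∣ G := by
  obtain ⟨G1, rfl⟩ := h1
  have h4 : y ^ 5 ∣ G1 := T.hy.pow_dvd_of_dvd_mul_left 5
    (fun h => T.hyx (T.hy.dvd_of_dvd_pow h)) h2
  obtain ⟨G2, rfl⟩ := h4
  have h5 : (x + y) ^ 3 ∣ G2 := by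
    apply T.hz.pow_dvd_of_dvd_mul_left 3 (a := y ^ 5)
      (fun h => T.hzy (T.hz.dvd_of_dvd_pow h))
    exact T.hz.pow_dvd_of_dvd_mul_left 3 (fun h => T.hzx (T.hz.dvd_of_dvd_pow h)) h3
  obtain ⟨G3, rfl⟩ := h5
  exact ⟨G3, by ring⟩

/-- existence of the next pair -/
lemma exists_rec {a b : S} (P : Pts x y a b) : ∃ a' b' : S, Rec x y a b a' b' := by
  have h2 : (2 : S) = 0 := two_zero
  have hid1 := id1 (x := x) (y := y)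
  have hid2 := id2 (x := x) (y := y)
  obtain ⟨a1, ha1⟩ := P.a0
  obtain ⟨b1, hb1⟩ := P.b0
  obtain ⟨c1, hc1⟩ := P.c0
  have e := add_pow16 a b
  have ea : a ^ 16 = x ^ 16 * a1 ^ 16 := by rw [ha1]; ring
  have eb : b ^ 16 = y ^ 16 * b1 ^ 16 := by rw [hb1]; ring
  have ec : a ^ 16 + b ^ 16 = (x + y) ^ 16 * c1 ^ 16 := by rw [← e, hc1]; ring
  obtain ⟨a', ha'⟩ := T.D_dvd (G := a ^ 16 * (y ^ 5 * (x ^ 2 + x * y + y ^ 2)) + b ^ 16 * x ^ 7)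
    ⟨x ^ 10 * a1 ^ 16 * (y ^ 5 * (x ^ 2 + x * y + y ^ 2)) + b ^ 16 * x, by rw [ea]; ring⟩
    ⟨a ^ 16 * (x ^ 2 + x * y + y ^ 2) + y ^ 11 * b1 ^ 16 * x ^ 7, by rw [eb]; ring⟩
    ⟨a ^ 16 * (x ^ 4 + x ^ 3 * y + y ^ 4) + (x + y) ^ 13 * c1 ^ 16 * x ^ 7, by
      linear_combination a ^ 16 * hid1 + x ^ 7 * ec - a ^ 16 * x ^ 7 * h2⟩
  obtain ⟨b', hb'⟩ := T.D_dvd (G := a ^ 16 * (y ^ 6 * (x + y)) + b ^ 16 * (x ^ 6 * (x + y)))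
    ⟨x ^ 10 * a1 ^ 16 * (y ^ 6 * (x + y)) + b ^ 16 * (x + y), by rw [ea]; ring⟩
    ⟨a ^ 16 * (y * (x + y)) + y ^ 11 * b1 ^ 16 * (x ^ 6 * (x + y)), by rw [eb]; ring⟩
    ⟨a ^ 16 * (x ^ 4 + x ^ 2 * y ^ 2 + y ^ 4) + (x + y) ^ 13 * c1 ^ 16 * (x ^ 6 * (x + y)), by
      linear_combination a ^ 16 * hid2 + x ^ 6 * (x + y) * ec - a ^ 16 * (x ^ 6 * (x + y)) * h2⟩
  exact ⟨a', b', ⟨ha'.symm, hb'.symm⟩⟩

/-- the conditions persist -/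
lemma pts_rec {a b a' b' : S} (P : Pts x y a b) (R : Rec x y a b a' b') : Pts x y a' b' := by
  have h2 : (2 : S) = 0 := two_zero
  have hid1 := id1 (x := x) (y := y)
  have hid3 := id3 (x := x) (y := y)
  obtain ⟨a1, ha1⟩ := P.a0
  obtain ⟨b1, hb1⟩ := P.b0
  obtain ⟨c1, hc1⟩ := P.c0
  have e := add_pow16 a b
  have ea : a ^ 16 = x ^ 16 * a1 ^ 16 := by rw [ha1]; ring
  have eb : b ^ 16 = y ^ 16 * b1 ^ 16 := by rw [hb1]; ring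
  have ec : a ^ 16 + b ^ 16 = (x + y) ^ 16 * c1 ^ 16 := by rw [← e, hc1]; ring
  have hR1 := R.h1
  have hR2 := R.h2
  have hx0 := T.hx.ne_zero
  have hy0 := T.hy.ne_zero
  have hz0 := T.hz.ne_zero
  refine ⟨?_, ?_, ?_, ?_, ?_, ?_⟩
  · -- x ∣ a'
    have h : y ^ 5 * (x + y) ^ 3 * a' =
        x * (x ^ 9 * a1 ^ 16 * (y ^ 5 * (x ^ 2 + x * y + y ^ 2)) + b ^ 16) := by
      apply mul_left_cancel₀ (pow_ne_zero 6 hx0)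
      rw [ea] at hR1
      linear_combination hR1
    have h' : x ∣ y ^ 5 * (x + y) ^ 3 * a' := ⟨_, h⟩
    rcases T.hx.dvd_or_dvd h' with h3 | h3
    · rcases T.hx.dvd_or_dvd h3 with h4 | h4
      · exact absurd (T.hx.dvd_of_dvd_pow h4) T.hxy
      · exact absurd (T.hx.dvd_of_dvd_pow h4) T.hxz
    · exact h3
  · -- y ∣ b'
    have h : x ^ 6 * (x + y) ^ 3 * b' =
        y * (a ^ 16 * (x + y) + y ^ 10 * b1 ^ 16 * (x ^ 6 * (x + y))) := by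
      apply mul_left_cancel₀ (pow_ne_zero 5 hy0)
      rw [eb] at hR2
      linear_combination hR2
    have h' : y ∣ x ^ 6 * (x + y) ^ 3 * b' := ⟨_, h⟩
    rcases T.hy.dvd_or_dvd h' with h3 | h3
    · rcases T.hy.dvd_or_dvd h3 with h4 | h4
      · exact absurd (T.hy.dvd_of_dvd_pow h4) T.hyx
      · exact absurd (T.hy.dvd_of_dvd_pow h4) T.hyz
    · exact h3
  · -- x + y ∣ a' + b'
    have h : x ^ 6 * y ^ 5 * (a' + b') = (x + y) * ((x + y) ^ 12 * c1 ^ 16 *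
        (y ^ 5 * (x ^ 2 + x * y + y ^ 2) + y ^ 6 * (x + y)) + b ^ 16 * (x ^ 2 * y)) := by
      apply mul_left_cancel₀ (pow_ne_zero 3 hz0)
      linear_combination hR1 + hR2 + (y ^ 5 * (x ^ 2 + x * y + y ^ 2) + y ^ 6 * (x + y)) * ec +
        b ^ 16 * hid3 - b ^ 16 * (y ^ 5 * (x ^ 2 + x * y + y ^ 2) + y ^ 6 * (x + y)) * h2
    have h' : (x + y) ∣ x ^ 6 * y ^ 5 * (a' + b') := ⟨_, h⟩
    rcases T.hz.dvd_or_dvd h' with h3 | h3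
    · rcases T.hz.dvd_or_dvd h3 with h4 | h4
      · exact absurd (T.hz.dvd_of_dvd_pow h4) T.hzx
      · exact absurd (T.hz.dvd_of_dvd_pow h4) T.hzy
    · exact h3
  · -- ¬ y ∣ a'
    rintro ⟨t, rfl⟩
    have h : a ^ 16 * (x ^ 2 + x * y + y ^ 2) =
        y * (x ^ 6 * (x + y) ^ 3 * t - y ^ 10 * b1 ^ 16 * x ^ 7) := by
      apply mul_left_cancel₀ (pow_ne_zero 5 hy0)
      rw [eb] at hR1
      linear_combination -hR1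
    have h' : y ∣ a ^ 16 * (x ^ 2 + x * y + y ^ 2) := ⟨_, h⟩
    rcases T.hy.dvd_or_dvd h' with h3 | h3
    · exact P.na (T.hy.dvd_of_dvd_pow h3)
    · have h4 : y ∣ x ^ 2 := by
        have h5 : x ^ 2 + x * y + y ^ 2 = x ^ 2 + y * (x + y) := by ring
        rw [h5] at h3
        exact (dvd_add_left (Dvd.intro _ rfl)).mp h3
      exact T.hyx (T.hy.dvd_of_dvd_pow h4)
  · -- ¬ x ∣ b'
    rintro ⟨t, rfl⟩
    have h : b ^ 16 * (x + y) = x * (y ^ 5 * (x + y) ^ 3 * t - x ^ 9 * a1 ^ 16 *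
        (y ^ 6 * (x + y))) := by
      apply mul_left_cancel₀ (pow_ne_zero 6 hx0)
      rw [ea] at hR2
      linear_combination -hR2
    have h' : x ∣ b ^ 16 * (x + y) := ⟨_, h⟩
    rcases T.hx.dvd_or_dvd h' with h3 | h3
    · exact P.nb (T.hx.dvd_of_dvd_pow h3)
    · exact T.hxz h3
  · -- ¬ x + y ∣ a'
    rintro ⟨t, rfl⟩
    have h : a ^ 16 * (x ^ 4 + x ^ 3 * y + y ^ 4) =
        (x + y) * (x ^ 6 * y ^ 5 * t - (x + y) ^ 12 * c1 ^ 16 * x ^ 7) := by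
      apply mul_left_cancel₀ (pow_ne_zero 3 hz0)
      linear_combination -hR1 - a ^ 16 * hid1 - x ^ 7 * ec + a ^ 16 * x ^ 7 * h2
    have h' : (x + y) ∣ a ^ 16 * (x ^ 4 + x ^ 3 * y + y ^ 4) := ⟨_, h⟩
    rcases T.hz.dvd_or_dvd h' with h3 | h3
    · exact P.nc (T.hz.dvd_of_dvd_pow h3)
    · have h4 : (x + y) ∣ y ^ 4 := by
        have h5 : x ^ 4 + x ^ 3 * y + y ^ 4 = (x + y) * x ^ 3 + y ^ 4 := by ring
        rw [h5] at h3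
        exact (dvd_add_right (Dvd.intro _ rfl)).mp h3
      exact T.hzy (T.hz.dvd_of_dvd_pow h4)

/-- the syzygy part: from `D F = A a¹⁶ + B b¹⁶` to `F = α a' + β b'` -/
lemma colon_rec {a b a' b' A B F : S} (P : Pts x y a b) (R : Rec x y a b a' b')
    (hF : x ^ 6 * y ^ 5 * (x + y) ^ 3 * F = A * a ^ 16 + B * b ^ 16) :
    ∃ α β : S, F = α * a' + β * b' := by
  have h2 : (2 : S) = 0 := two_zero
  have hid1 := id1 (x := x) (y := y)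
  have hid2 := id2 (x := x) (y := y)
  obtain ⟨a1, ha1⟩ := P.a0
  obtain ⟨b1, hb1⟩ := P.b0
  obtain ⟨c1, hc1⟩ := P.c0
  have e := add_pow16 a b
  have ea : a ^ 16 = x ^ 16 * a1 ^ 16 := by rw [ha1]; ring
  have eb : b ^ 16 = y ^ 16 * b1 ^ 16 := by rw [hb1]; ring
  have ec : a ^ 16 + b ^ 16 = (x + y) ^ 16 * c1 ^ 16 := by rw [← e, hc1]; ring
  have hB : x ^ 6 ∣ B := by
    apply T.hx.pow_dvd_of_dvd_mul_left 6 (a := b ^ 16) (fun h => P.nb (T.hx.dvd_of_dvd_pow h))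
    refine ⟨y ^ 5 * (x + y) ^ 3 * F - A * (x ^ 10 * a1 ^ 16), ?_⟩
    rw [ea] at hF
    linear_combination -hF
  have hA : y ^ 5 ∣ A := by
    apply T.hy.pow_dvd_of_dvd_mul_left 5 (a := a ^ 16) (fun h => P.na (T.hy.dvd_of_dvd_pow h))
    refine ⟨x ^ 6 * (x + y) ^ 3 * F - B * (y ^ 11 * b1 ^ 16), ?_⟩
    rw [eb] at hF
    linear_combination -hF
  have hAB : (x + y) ^ 3 ∣ A + B := by
    apply T.hz.pow_dvd_of_dvd_mul_left 3 (a := a ^ 16) (fun h => P.nc (T.hz.dvd_of_dvd_pow h))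
    refine ⟨x ^ 6 * y ^ 5 * F - B * ((x + y) ^ 13 * c1 ^ 16), ?_⟩
    linear_combination -hF - B * ec + B * a ^ 16 * h2
  obtain ⟨B1, rfl⟩ := hB
  obtain ⟨A1, rfl⟩ := hA
  obtain ⟨C1, hC1⟩ := hAB
  obtain ⟨α, hα⟩ := T.D_dvd
    (G := x ^ 6 * (x + y) * (y ^ 5 * A1) + y ^ 6 * (x + y) * (x ^ 6 * B1))
    ⟨(x + y) * (y ^ 5 * A1) + y ^ 6 * (x + y) * B1, by ring⟩
    ⟨x ^ 6 * (x + y) * A1 + y * (x + y) * (x ^ 6 * B1), by ring⟩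
    ⟨x ^ 6 * (x + y) * C1 + (x ^ 4 + x ^ 2 * y ^ 2 + y ^ 4) * (x ^ 6 * B1), by
      linear_combination x ^ 6 * (x + y) * hC1 + x ^ 6 * B1 * hid2 -
        x ^ 6 * (x + y) * (x ^ 6 * B1) * h2⟩
  obtain ⟨β, hβ⟩ := T.D_dvd
    (G := x ^ 7 * (y ^ 5 * A1) + y ^ 5 * (x ^ 2 + x * y + y ^ 2) * (x ^ 6 * B1))
    ⟨x * (y ^ 5 * A1) + y ^ 5 * (x ^ 2 + x * y + y ^ 2) * B1, by ring⟩
    ⟨x ^ 7 * A1 + (x ^ 2 + x * y + y ^ 2) * (x ^ 6 * B1), by ring⟩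
    ⟨x ^ 7 * C1 + (x ^ 4 + x ^ 3 * y + y ^ 4) * (x ^ 6 * B1), by
      linear_combination x ^ 7 * hC1 + x ^ 6 * B1 * hid1 - x ^ 7 * (x ^ 6 * B1) * h2⟩
  refine ⟨α, β, ?_⟩
  have hD := T.D_ne
  apply mul_left_cancel₀ hD
  apply mul_left_cancel₀ hD
  have hR1 := R.h1
  have hR2 := R.h2
  linear_combination x ^ 6 * y ^ 5 * (x + y) ^ 3 * hF - x ^ 6 * y ^ 5 * (x + y) ^ 3 * α * hR1 +
    (a ^ 16 * (y ^ 5 * (x ^ 2 + x * y + y ^ 2)) + b ^ 16 * x ^ 7) * hα -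
    x ^ 6 * y ^ 5 * (x + y) ^ 3 * β * hR2 +
    (a ^ 16 * (y ^ 6 * (x + y)) + b ^ 16 * (x ^ 6 * (x + y))) * hβ -
    (x ^ 6 * B1 * (y ^ 5 * (x ^ 2 + x * y + y ^ 2)) * (y ^ 6 * (x + y)) * a ^ 16 +
      y ^ 5 * A1 * x ^ 7 * (x ^ 6 * (x + y)) * b ^ 16) * h2

/-- `x^Q ∈ (a, b)` persists -/
lemma unit_rec {a b a' b' : S} {Q : ℕ} (R : Rec x y a b a' b')
    (h : ∃ α β : S, x ^ Q = α * a + β * b) : ∃ α β : S, x ^ (Q * 16) = α * a' + β * b' := by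
  have h2 : (2 : S) = 0 := two_zero
  obtain ⟨α, β, hx⟩ := h
  have hD := T.D_ne
  have hR1 := R.h1
  have hR2 := R.h2
  have ha : a ^ 16 = x ^ 6 * (x + y) * a' + x ^ 7 * b' := by
    apply mul_left_cancel₀ hD
    linear_combination -(x ^ 6 * (x + y)) * hR1 - x ^ 7 * hR2 -
      (b ^ 16 * x ^ 7 * (x ^ 6 * (x + y))) * h2
  have hb : b ^ 16 = y ^ 6 * (x + y) * a' + y ^ 5 * (x ^ 2 + x * y + y ^ 2) * b' := by
    apply mul_left_cancel₀ hD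
    linear_combination -(y ^ 6 * (x + y)) * hR1 - y ^ 5 * (x ^ 2 + x * y + y ^ 2) * hR2 -
      (a ^ 16 * (y ^ 5 * (x ^ 2 + x * y + y ^ 2)) * (y ^ 6 * (x + y))) * h2
  refine ⟨α ^ 16 * (x ^ 6 * (x + y)) + β ^ 16 * (y ^ 6 * (x + y)),
    α ^ 16 * x ^ 7 + β ^ 16 * (y ^ 5 * (x ^ 2 + x * y + y ^ 2)), ?_⟩
  rw [pow_mul, hx, add_pow16, mul_pow, mul_pow, ha, hb]
  ring

end Three

end Alg

end Pool.Agent.MP98601e
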