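import Pool.Agent.Work.MP_98601e_ag.Global
import Pool.Agent.Work.MP_98601e_ag.TwoAlg

/-!
Characteristic two: the coefficients `(2/5, 1/3, 1/5)` are good.
-/

open MvPolynomial

set_option linter.unusedSectionVars false

namespace Pool.Agent.MP98601e

section Decomp

variable {k : Type*} [Field k] (p : ℕ) [Fact p.Prime] [CharP k p] [PerfectRing k p]

lemma rootE_pow' (e : ℕ) (a : k) : (rootE p e a) ^ p ^ e = a := by
  show ((iterateFrobeniusEquiv k p e).symm a) ^ p ^ e = a
  exact (iterateFrobeniusEquiv k p e).apply_symm_apply a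

/-- `G = Σ_{i,j<q} (tr_{ij} G)^q x^i y^j`. -/
lemma tr_decomp (e : ℕ) (G : MvPolynomial (Fin 2) k) :
    G = ∑ i ∈ Finset.range (p ^ e), ∑ j ∈ Finset.range (p ^ e),
      (tr p e (ex i j) G) ^ p ^ e * monomial (ex i j) 1 := by
  have hp : 0 < p ^ e := pow_pos (Fact.out : p.Prime).pos e
  induction G using MvPolynomial.induction_on' with
  | monomial m c =>
    rw [Finset.sum_eq_single (m 0 % p ^ e), Finset.sum_eq_single (m 1 % p ^ e)]
    · rw [tr_monomial]
      unfold gmon
      rw [if_pos]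
      · rw [C_mul_monomial, monomial_pow, mul_one, monomial_mul, mul_one, rootE_pow']
        have hm : m = (p ^ e) • (m.mapRange (· / p ^ e) (Nat.zero_div (p ^ e))) +
            ex (m 0 % p ^ e) (m 1 % p ^ e) := by
          refine Finsupp.ext fun i => ?_
          fin_cases i
          · simp only [Fin.zero_eta, Finsupp.add_apply, Finsupp.smul_apply, smul_eq_mul,
              Finsupp.mapRange_apply, ex_zero]
            exact (Nat.div_add_mod _ _).symm
          · simp only [Fin.mk_one, Finsupp.add_apply, Finsupp.smul_apply, smul_eq_mul,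
              Finsupp.mapRange_apply, ex_one]
            exact (Nat.div_add_mod _ _).symm
        rw [← hm]
      · intro i
        fin_cases i <;> simp
    · intro j _ hj
      rw [tr_monomial]
      unfold gmon
      rw [if_neg, mul_zero, zero_pow hp.ne', zero_mul]
      intro H
      have := H 1
      simp only [ex_one] at this
      exact hj this.symm
    · intro h
      exact absurd (Finset.mem_range.mpr (Nat.mod_lt _ hp)) h
    · intro i _ hi
      apply Finset.sum_eq_zero
      intro j _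
      rw [tr_monomial]
      unfold gmon
      rw [if_neg, mul_zero, zero_pow hp.ne', zero_mul]
      intro H
      have := H 0
      simp only [ex_zero] at this
      exact hi this.symm
    · intro h
      exact absurd (Finset.mem_range.mpr (Nat.mod_lt _ hp)) h
  | add a b iha ihb =>
    conv_lhs => rw [iha, ihb]
    rw [← Finset.sum_add_distrib]
    apply Finset.sum_congr rfl
    intro i _
    rw [← Finset.sum_add_distrib]
    apply Finset.sum_congr rfl
    intro j _
    rw [map_add, add_pow_char_pow, add_mul]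

/-- the degree drops -/
lemma totalDegree_tr (e : ℕ) (s : Fin 2 →₀ ℕ) (G : MvPolynomial (Fin 2) k) (n : ℕ)
    (hG : G.totalDegree ≤ n) : (tr p e s G).totalDegree ≤ n / p ^ e := by
  have hp : 0 < p ^ e := pow_pos (Fact.out : p.Prime).pos e
  rw [G.as_sum, map_sum]
  apply totalDegree_finsetSum_le
  intro m hm
  rw [tr_monomial]
  refine (totalDegree_mul _ _).trans ?_
  rw [totalDegree_C, zero_add]
  unfold gmon
  split_ifs with H
  · refine (totalDegree_monomial_le _ _).trans ?_
    have hm1 : m 0 + m 1 ≤ n := by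
      have := (le_totalDegree hm).trans hG
      rw [Finsupp.sum_fintype _ _ (fun _ => rfl)] at this
      simpa [Fin.sum_univ_two] using this
    rw [Finsupp.sum_fintype _ _ (fun _ => rfl)]
    simp only [Fin.sum_univ_two, Finsupp.mapRange_apply]
    rw [Nat.le_div_iff_mul_le hp, add_mul]
    exact (add_le_add (Nat.div_mul_le_self _ _) (Nat.div_mul_le_self _ _)).trans hm1
  · simp

end Decomp

section Seq

variable {k : Type*} [Field k] [CharP k 2] [PerfectRing k 2]

lemma hom_of_mul {D h : MvPolynomial (Fin 2) k} {a n : ℕ} (hD : D.IsHomogeneous a) (hD0 : D ≠ 0)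
    (h1 : (D * h).IsHomogeneous (a + n)) : h.IsHomogeneous n := by
  have key : ∀ i, i ≠ n → homogeneousComponent i h = 0 := by
    intro i hi
    have h2 := comp_mul_left (b := h) hD i
    rw [homogeneousComponent_of_mem h1, if_neg (by omega)] at h2
    rcases mul_eq_zero.mp h2.symm with h3 | h3
    · exact absurd h3 hD0
    · exact h3
  have h3 : h = homogeneousComponent n h := by
    conv_lhs => rw [← sum_homogeneousComponent h]
    by_cases hn : n ∈ Finset.range (h.totalDegree + 1)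
    · exact Finset.sum_eq_single_of_mem n hn (fun i _ hi => key i hi)
    · rw [Finset.sum_eq_zero (fun i hi => key i (fun h => hn (h ▸ hi)))]
      rw [homogeneousComponent_eq_zero]
      simpa using hn
  rw [h3]
  exact homogeneousComponent_isHomogeneous n h

instance : CharP (MvPolynomial (Fin 2) k) 2 := MvPolynomial.instCharP ..

lemma prime_add : Prime (X 0 + X 1 : MvPolynomial (Fin 2) k) := by
  let σ : MvPolynomial (Fin 2) k ≃ₐ[k] MvPolynomial (Fin 2) k :=
    AlgEquiv.ofAlgHom (aeval ![X 0 + X 1, X 1]) (aeval ![X 0 - X 1, X 1])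
      (by
        apply algHom_ext
        intro i
        fin_cases i <;> simp)
      (by
        apply algHom_ext
        intro i
        fin_cases i <;> simp)
  have h1 : σ (X 0) = X 0 + X 1 := by
    show aeval ![X 0 + X 1, X 1] (X 0) = _
    simp
  rw [← h1]
  exact (MulEquiv.prime_iff (σ : MvPolynomial (Fin 2) k ≃* MvPolynomial (Fin 2) k)).mpr
    X_prime

lemma three : Three (X 0 : MvPolynomial (Fin 2) k) (X 1) where
  hx := X_prime
  hy := X_prime
  hz := prime_add
  hxy := by rw [X_dvd_X]; simp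
  hyx := by rw [X_dvd_X]; simp
  hzx := by
    intro h
    have h1 := map_dvd (eval (fun _ => (1 : k))) h
    simp only [map_add, eval_X] at h1
    rw [CharTwo.add_self_eq_zero, zero_dvd_iff] at h1
    exact one_ne_zero h1
  hzy := by
    intro h
    have h1 := map_dvd (eval (fun _ => (1 : k))) h
    simp only [map_add, eval_X] at h1
    rw [CharTwo.add_self_eq_zero, zero_dvd_iff] at h1
    exact one_ne_zero h1

/-- `(16^j - 1) / 15` -/
def sj (j : ℕ) : ℕ := ∑ i ∈ Finset.range j, 16 ^ i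

lemma sj_succ (j : ℕ) : sj (j + 1) = 16 * sj j + 1 := by
  unfold sj
  rw [Finset.sum_range_succ', Finset.mul_sum, pow_zero]
  congr 1
  apply Finset.sum_congr rfl
  intro i _
  ring

lemma sj_eq (j : ℕ) : 15 * sj j + 1 = 16 ^ j := by
  induction j with
  | zero => simp [sj]
  | succ j ih => rw [sj_succ, pow_succ]; omega

lemma le_sj (j : ℕ) : j ≤ sj j := by
  induction j with
  | zero => simp
  | succ j ih => rw [sj_succ]; omega

/-- the degree of the generators at level `j` -/
def mj (j : ℕ) : ℕ := 8 * sj j + 1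

/-- `D = x⁶ y⁵ (x+y)³` -/
noncomputable def DD : MvPolynomial (Fin 2) k := X 0 ^ 6 * X 1 ^ 5 * (X 0 + X 1) ^ 3

lemma DD_hom : (DD : MvPolynomial (Fin 2) k).IsHomogeneous 14 := by
  have := (((isHomogeneous_X k (0 : Fin 2)).pow 6).mul ((isHomogeneous_X k 1).pow 5)).mul
    (((isHomogeneous_X k 0).add (isHomogeneous_X k 1)).pow 3)
  simpa [DD] using this

lemma DD_ne : (DD : MvPolynomial (Fin 2) k) ≠ 0 := three.D_ne

/-- The properties of the pair of generators at level `j`. -/
structure Lev (j : ℕ) (h : MvPolynomial (Fin 2) k × MvPolynomial (Fin 2) k) : Prop where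
  hom1 : h.1.IsHomogeneous (mj j)
  hom2 : h.2.IsHomogeneous (mj j)
  pts : Pts (X 0) (X 1) h.1 h.2
  colon : ∀ F : MvPolynomial (Fin 2) k,
    (∃ u v : MvPolynomial (Fin 2) k, DD ^ sj j * F = X 0 ^ 16 ^ j * u + X 1 ^ 16 ^ j * v) →
    ∃ α β : MvPolynomial (Fin 2) k, F = α * h.1 + β * h.2
  unit : ∃ α β : MvPolynomial (Fin 2) k, X 0 ^ 16 ^ j = α * h.1 + β * h.2

lemma lev_zero : Lev (k := k) 0 (X 0, X 1) where
  hom1 := by simpa [mj, sj] using isHomogeneous_X k (0 : Fin 2)
  hom2 := by simpa [mj, sj] using isHomogeneous_X k (1 : Fin 2)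
  pts := ⟨dvd_refl _, dvd_refl _, dvd_refl _, three.hyx, three.hxy, three.hzx⟩
  colon := by
    rintro F ⟨u, v, h⟩
    simp only [sj, Finset.range_zero, Finset.sum_empty, pow_zero, one_mul, pow_one] at h
    exact ⟨u, v, by rw [h]; ring⟩
  unit := ⟨1, 0, by simp⟩

/-- the functional with `q = 16` -/
lemma tr16 (s : Fin 2 →₀ ℕ) (r h : MvPolynomial (Fin 2) k) :
    tr 2 4 s (r ^ 16 * h) = r * tr 2 4 s h := by
  have := tr_semilin 2 4 s r h
  simpa using this

lemma decomp16 (G : MvPolynomial (Fin 2) k) :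
    G = ∑ i ∈ Finset.range 16, ∑ j ∈ Finset.range 16,
      (tr 2 4 (ex i j) G) ^ 16 * monomial (ex i j) 1 := by
  have := tr_decomp 2 4 G
  simpa using this

lemma lev_succ {j : ℕ} {h h' : MvPolynomial (Fin 2) k × MvPolynomial (Fin 2) k} (L : Lev j h)
    (R : Rec (X 0) (X 1) h.1 h.2 h'.1 h'.2) : Lev (j + 1) h' := by
  have T := three (k := k)
  have hdeg : 14 + mj (j + 1) = mj j * 16 + 7 := by
    simp only [mj, sj_succ]; omega
  refine ⟨?_, ?_, T.pts_rec L.pts R, ?_, ?_⟩
  · apply hom_of_mul DD_hom DD_ne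
    rw [DD, R.h1, hdeg]
    apply IsHomogeneous.add
    · apply (L.hom1.pow 16).mul
      have := ((isHomogeneous_X k (1 : Fin 2)).pow 5).mul
        ((((isHomogeneous_X k (0 : Fin 2)).pow 2).add
          ((isHomogeneous_X k (0 : Fin 2)).mul (isHomogeneous_X k (1 : Fin 2)))).add
            ((isHomogeneous_X k (1 : Fin 2)).pow 2))
      simpa using this
    · apply (L.hom2.pow 16).mul
      have := (isHomogeneous_X k (0 : Fin 2)).pow 7
      simpa using this
  · apply hom_of_mul DD_hom DD_ne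
    rw [DD, R.h2, hdeg]
    apply IsHomogeneous.add
    · apply (L.hom1.pow 16).mul
      have := ((isHomogeneous_X k (1 : Fin 2)).pow 6).mul
        ((isHomogeneous_X k (0 : Fin 2)).add (isHomogeneous_X k (1 : Fin 2)))
      simpa using this
    · apply (L.hom2.pow 16).mul
      have := ((isHomogeneous_X k (0 : Fin 2)).pow 6).mul
        ((isHomogeneous_X k (0 : Fin 2)).add (isHomogeneous_X k (1 : Fin 2)))
      simpa using this
  · rintro F ⟨u, v, hF⟩
    have key : ∀ s : Fin 2 →₀ ℕ, ∃ α β : MvPolynomial (Fin 2) k,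
        tr 2 4 s (DD * F) = α * h.1 + β * h.2 := by
      intro s
      apply L.colon
      refine ⟨tr 2 4 s u, tr 2 4 s v, ?_⟩
      rw [← tr16, ← tr16, ← tr16, ← map_add]
      congr 1
      have e1 : (DD ^ sj j) ^ 16 * (DD * F) = DD ^ sj (j + 1) * F := by
        rw [sj_succ]; ring
      rw [e1, hF, ← pow_mul, ← pow_mul, pow_succ]
    choose α β hαβ using key
    have hDF := decomp16 (DD * F)
    apply T.colon_rec L.pts R (A := ∑ i ∈ Finset.range 16, ∑ j ∈ Finset.range 16,
      α (ex i j) ^ 16 * monomial (ex i j) 1) (B := ∑ i ∈ Finset.range 16,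
        ∑ j ∈ Finset.range 16, β (ex i j) ^ 16 * monomial (ex i j) 1)
    rw [← DD, hDF, Finset.sum_mul, Finset.sum_mul, ← Finset.sum_add_distrib]
    apply Finset.sum_congr rfl
    intro i _
    rw [Finset.sum_mul, Finset.sum_mul, ← Finset.sum_add_distrib]
    apply Finset.sum_congr rfl
    intro j _
    rw [hαβ, add_pow16]
    ring
  · rw [pow_succ]
    exact T.unit_rec R L.unit

/-- the sequence of pairs of generators -/
lemma exists_seq : ∃ h : ℕ → MvPolynomial (Fin 2) k × MvPolynomial (Fin 2) k,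
    ∀ j, Lev j (h j) ∧ Rec (X 0) (X 1) (h j).1 (h j).2 (h (j + 1)).1 (h (j + 1)).2 := by
  have T := three (k := k)
  have step : ∀ (j : ℕ) (h : MvPolynomial (Fin 2) k × MvPolynomial (Fin 2) k),
      ∃ h' : MvPolynomial (Fin 2) k × MvPolynomial (Fin 2) k, Lev j h →
        Rec (X 0) (X 1) h.1 h.2 h'.1 h'.2 := by
    intro j h
    by_cases L : Lev j h
    · obtain ⟨a', b', R⟩ := T.exists_rec L.pts
      exact ⟨(a', b'), fun _ => R⟩
    · exact ⟨h, fun L' => absurd L' L⟩
  choose nxt hnxt using step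
  let sq : ℕ → MvPolynomial (Fin 2) k × MvPolynomial (Fin 2) k :=
    fun j => Nat.rec (X 0, X 1) (fun j h => nxt j h) j
  have hL : ∀ j, Lev j (sq j) := by
    intro j
    induction j with
    | zero => exact lev_zero
    | succ j ih => exact lev_succ ih (hnxt j (sq j) ih)
  exact ⟨sq, fun j => ⟨hL j, hnxt j (sq j) (hL j)⟩⟩

lemma dvd_of_dvd_X_pow_mul {h Z : MvPolynomial (Fin 2) k} (hh : ¬ X 0 ∣ h) (n : ℕ)
    (H : h ∣ X 0 ^ n * Z) : h ∣ Z := by
  induction n with
  | zero => simpa using H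
  | succ n ih =>
    apply ih
    obtain ⟨t, ht⟩ := H
    have h1 : X 0 ∣ h * t := ⟨X 0 ^ n * Z, by rw [← ht]; ring⟩
    rcases (three (k := k)).hx.dvd_or_dvd h1 with h2 | h2
    · exact absurd h2 hh
    · obtain ⟨t', rfl⟩ := h2
      refine ⟨t', ?_⟩
      apply mul_left_cancel₀ (three (k := k)).hx.ne_zero
      linear_combination ht

lemma Lev.ne {j : ℕ} {h : MvPolynomial (Fin 2) k × MvPolynomial (Fin 2) k} (L : Lev j h) :
    h.2 ≠ 0 := fun h0 => L.pts.nb (by rw [h0]; exact dvd_zero _)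

/-- coprimality with a degree bound -/
lemma Lev.coprime {j : ℕ} {h : MvPolynomial (Fin 2) k × MvPolynomial (Fin 2) k} (L : Lev j h)
    (Z1 Z2 : MvPolynomial (Fin 2) k) (H : Z1 * h.1 + Z2 * h.2 = 0)
    (hdeg : Z1.totalDegree < mj j) : Z1 = 0 ∧ Z2 = 0 := by
  have h1 : Z1 = 0 := by
    by_contra hZ
    obtain ⟨α, β, hx⟩ := L.unit
    have hd : h.2 ∣ X 0 ^ 16 ^ j * Z1 := by
      refine ⟨β * Z1 - α * Z2, ?_⟩
      rw [hx]
      linear_combination α * H
    obtain ⟨t, ht⟩ := dvd_of_dvd_X_pow_mul L.pts.nb _ hd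
    have ht0 : t ≠ 0 := by
      rintro rfl
      exact hZ (by rw [ht, mul_zero])
    rw [ht, totalDegree_mul_of_isDomain L.ne ht0, L.hom2.totalDegree L.ne] at hdeg
    omega
  refine ⟨h1, ?_⟩
  rw [h1, zero_mul, zero_add] at H
  exact (mul_eq_zero.mp H).resolve_right L.ne

/-- the product with the matrix `N` -/
noncomputable def vA (w1 w2 : MvPolynomial (Fin 2) k) : MvPolynomial (Fin 2) k :=
  X 1 ^ 5 * (X 0 ^ 2 + X 0 * X 1 + X 1 ^ 2) * w1 + X 1 ^ 6 * (X 0 + X 1) * w2

/-- the product with the matrix `N` -/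
noncomputable def vB (w1 w2 : MvPolynomial (Fin 2) k) : MvPolynomial (Fin 2) k :=
  X 0 ^ 7 * w1 + X 0 ^ 6 * (X 0 + X 1) * w2

lemma vA_deg (w1 w2 : MvPolynomial (Fin 2) k) (E : ℕ) (h1 : w1.totalDegree ≤ E)
    (h2 : w2.totalDegree ≤ E) : (vA w1 w2).totalDegree ≤ 7 + E := by
  have e1 : (X 1 ^ 5 * (X 0 ^ 2 + X 0 * X 1 + X 1 ^ 2) : MvPolynomial (Fin 2) k).totalDegree ≤ 7
      := by
    have := ((isHomogeneous_X k (1 : Fin 2)).pow 5).mul
        ((((isHomogeneous_X k (0 : Fin 2)).pow 2).add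
          ((isHomogeneous_X k (0 : Fin 2)).mul (isHomogeneous_X k (1 : Fin 2)))).add
            ((isHomogeneous_X k (1 : Fin 2)).pow 2))
    simpa using this.totalDegree_le
  have e2 : (X 1 ^ 6 * (X 0 + X 1) : MvPolynomial (Fin 2) k).totalDegree ≤ 7 := by
    have := ((isHomogeneous_X k (1 : Fin 2)).pow 6).mul
        ((isHomogeneous_X k (0 : Fin 2)).add (isHomogeneous_X k (1 : Fin 2)))
    simpa using this.totalDegree_le
  unfold vA
  refine (totalDegree_add _ _).trans (max_le ?_ ?_)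
  · exact (totalDegree_mul _ _).trans (add_le_add e1 h1)
  · exact (totalDegree_mul _ _).trans (add_le_add e2 h2)

lemma vB_deg (w1 w2 : MvPolynomial (Fin 2) k) (E : ℕ) (h1 : w1.totalDegree ≤ E)
    (h2 : w2.totalDegree ≤ E) : (vB w1 w2).totalDegree ≤ 7 + E := by
  have e1 : (X 0 ^ 7 : MvPolynomial (Fin 2) k).totalDegree ≤ 7 := by
    have := ((isHomogeneous_X k (0 : Fin 2)).pow 7)
    simpa using this.totalDegree_le
  have e2 : (X 0 ^ 6 * (X 0 + X 1) : MvPolynomial (Fin 2) k).totalDegree ≤ 7 := by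
    have := ((isHomogeneous_X k (0 : Fin 2)).pow 6).mul
        ((isHomogeneous_X k (0 : Fin 2)).add (isHomogeneous_X k (1 : Fin 2)))
    simpa using this.totalDegree_le
  unfold vB
  refine (totalDegree_add _ _).trans (max_le ?_ ?_)
  · exact (totalDegree_mul _ _).trans (add_le_add e1 h1)
  · exact (totalDegree_mul _ _).trans (add_le_add e2 h2)

/-- the equations between traces -/
lemma trace_eq {h h' : MvPolynomial (Fin 2) k × MvPolynomial (Fin 2) k}
    (R : Rec (X 0) (X 1) h.1 h.2 h'.1 h'.2) (u f w1 w2 : MvPolynomial (Fin 2) k) (n : ℕ)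
    (H : u * f ^ n = w1 * h'.1 + w2 * h'.2) (s : Fin 2 →₀ ℕ) :
    tr 2 4 s (DD * u * f ^ (n % 16)) * f ^ (n / 16) =
      tr 2 4 s (vA w1 w2) * h.1 + tr 2 4 s (vB w1 w2) * h.2 := by
  have e1 : (f ^ (n / 16)) ^ 16 * (DD * u * f ^ (n % 16)) =
      h.1 ^ 16 * vA w1 w2 + h.2 ^ 16 * vB w1 w2 := by
    have e2 : f ^ n = (f ^ (n / 16)) ^ 16 * f ^ (n % 16) := by
      rw [← pow_mul, ← pow_add]
      congr 1
      omega
    have hR1 := R.h1
    have hR2 := R.h2
    unfold vA vB DD
    rw [e2] at H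
    linear_combination (X 0 ^ 6 * X 1 ^ 5 * (X 0 + X 1) ^ 3) * H + w1 * hR1 + w2 * hR2
  have e3 := congrArg (tr 2 4 s) e1
  rw [map_add, tr16, tr16, tr16] at e3
  linear_combination e3

lemma exists_tr_ne (G : MvPolynomial (Fin 2) k) (hG : G ≠ 0) :
    ∃ s : Fin 2 →₀ ℕ, tr 2 4 s G ≠ 0 := by
  by_contra hcon
  push Not at hcon
  apply hG
  rw [decomp16 G]
  apply Finset.sum_eq_zero
  intro i _
  apply Finset.sum_eq_zero
  intro j _
  rw [hcon, zero_pow (by norm_num), zero_mul]

lemma G_deg (u f : MvPolynomial (Fin 2) k) (U d n : ℕ) (hu : u.totalDegree ≤ U)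
    (hf : f.totalDegree ≤ d) : (DD * u * f ^ (n % 16)).totalDegree ≤ 14 + U + 15 * d := by
  refine (totalDegree_mul _ _).trans (add_le_add ((totalDegree_mul _ _).trans
    (add_le_add DD_hom.totalDegree_le hu)) ?_)
  refine (totalDegree_pow _ _).trans ?_
  have : n % 16 ≤ 15 := by omega
  exact Nat.mul_le_mul this hf

/-- one descent step -/
lemma descent {h h' : MvPolynomial (Fin 2) k × MvPolynomial (Fin 2) k}
    (R : Rec (X 0) (X 1) h.1 h.2 h'.1 h'.2) (u f w1 w2 : MvPolynomial (Fin 2) k) (n d U E : ℕ)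
    (H : u * f ^ n = w1 * h'.1 + w2 * h'.2) (hu0 : u ≠ 0) (hf0 : f ≠ 0)
    (hu : u.totalDegree ≤ U) (hf : f.totalDegree ≤ d) (h1 : w1.totalDegree ≤ E)
    (h2 : w2.totalDegree ≤ E) :
    ∃ u' w1' w2' : MvPolynomial (Fin 2) k, u' ≠ 0 ∧ u'.totalDegree ≤ (14 + U + 15 * d) / 16 ∧
      w1'.totalDegree ≤ (7 + E) / 16 ∧ w2'.totalDegree ≤ (7 + E) / 16 ∧
      u' * f ^ (n / 16) = w1' * h.1 + w2' * h.2 := by
  obtain ⟨s, hs⟩ := exists_tr_ne (DD * u * f ^ (n % 16))
    (mul_ne_zero (mul_ne_zero DD_ne hu0) (pow_ne_zero _ hf0))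
  refine ⟨_, _, _, hs, ?_, ?_, ?_, trace_eq R u f w1 w2 n H s⟩
  · have := totalDegree_tr 2 4 s _ _ (G_deg u f U d n hu hf)
    simpa using this
  · have := totalDegree_tr 2 4 s _ _ (vA_deg w1 w2 E h1 h2)
    simpa using this
  · have := totalDegree_tr 2 4 s _ _ (vB_deg w1 w2 E h1 h2)
    simpa using this

lemma tr_mon_self (i j : ℕ) (hi : i < 16) (hj : j < 16) (c : k) :
    tr 2 4 (ex i j) (monomial (ex i j) c) = C (rootE 2 4 c) := by
  rw [tr_monomial]
  unfold gmon
  rw [if_pos]
  · have : (ex i j).mapRange (· / 2 ^ 4) (Nat.zero_div (2 ^ 4)) = 0 := by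
      refine Finsupp.ext fun l => ?_
      fin_cases l
      · simp [Nat.div_eq_of_lt hi]
      · simp [Nat.div_eq_of_lt hj]
    rw [this]
    show C _ * (1 : MvPolynomial (Fin 2) k) = _
    rw [mul_one]
  · intro l
    fin_cases l
    · simpa using Nat.mod_eq_of_lt hi
    · simpa using Nat.mod_eq_of_lt hj

lemma tr_mon_other (i j i' j' : ℕ) (hi : i < 16) (hj : j < 16) (hne : i ≠ i') (c : k) :
    tr 2 4 (ex i' j') (monomial (ex i j) c) = 0 := by
  rw [tr_monomial]
  unfold gmon
  rw [if_neg, mul_zero]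
  intro H
  have := H 0
  simp only [ex_zero] at this
  rw [Nat.mod_eq_of_lt (by simpa using hi)] at this
  exact hne this

lemma rootE_eq_zero {e : ℕ} {a : k} (h : rootE 2 e a = 0) : a = 0 := by
  rw [← rootE_pow' 2 e a, h, zero_pow (by positivity)]

/-- the final contradiction -/
lemma final {j : ℕ} {h h' : MvPolynomial (Fin 2) k × MvPolynomial (Fin 2) k} (L : Lev j h)
    (R : Rec (X 0) (X 1) h.1 h.2 h'.1 h'.2) (u f w1 w2 : MvPolynomial (Fin 2) k) (n d U : ℕ)
    (H : u * f ^ n = w1 * h'.1 + w2 * h'.2) (hu0 : u ≠ 0) (hf0 : f ≠ 0)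
    (hu : u.totalDegree ≤ U) (hf : f.totalDegree ≤ d) (h1 : w1.totalDegree ≤ 0)
    (h2 : w2.totalDegree ≤ 0) (hm : (14 + U + 15 * d) / 16 < mj j) : False := by
  obtain ⟨a1, rfl⟩ : ∃ a, w1 = C a := ⟨_, totalDegree_eq_zero_iff_eq_C.mp (Nat.le_zero.mp h1)⟩
  obtain ⟨a2, rfl⟩ : ∃ a, w2 = C a := ⟨_, totalDegree_eq_zero_iff_eq_C.mp (Nat.le_zero.mp h2)⟩
  set c : (Fin 2 →₀ ℕ) → MvPolynomial (Fin 2) k := fun s =>
    tr 2 4 s (DD * u * f ^ (n % 16)) with hc
  set A : (Fin 2 →₀ ℕ) → MvPolynomial (Fin 2) k := fun s => tr 2 4 s (vA (C a1) (C a2)) with hA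
  set B : (Fin 2 →₀ ℕ) → MvPolynomial (Fin 2) k := fun s => tr 2 4 s (vB (C a1) (C a2)) with hB
  have heq : ∀ s, c s * f ^ (n / 16) = A s * h.1 + B s * h.2 := fun s =>
    trace_eq R u f (C a1) (C a2) n H s
  have hcdeg : ∀ s, (c s).totalDegree ≤ (14 + U + 15 * d) / 16 := by
    intro s
    have := totalDegree_tr 2 4 s _ _ (G_deg u f U d n hu hf)
    simpa using this
  have hAdeg : ∀ s, (A s).totalDegree ≤ 0 := by
    intro s
    have := totalDegree_tr 2 4 s _ _ (vA_deg (C a1) (C a2) 0 h1 h2)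
    simpa using this
  have hrel : ∀ s t, c s * A t = c t * A s ∧ c s * B t = c t * B s := by
    intro s t
    have e1 : (c s * A t - c t * A s) * h.1 + (c s * B t - c t * B s) * h.2 = 0 := by
      linear_combination c t * heq s - c s * heq t
    have hd : (c s * A t - c t * A s).totalDegree < mj j := by
      refine lt_of_le_of_lt ?_ hm
      refine (totalDegree_sub _ _).trans (max_le ?_ ?_)
      · exact (totalDegree_mul _ _).trans (add_le_add (hcdeg s) (hAdeg t))
      · exact (totalDegree_mul _ _).trans (add_le_add (hcdeg t) (hAdeg s))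
    obtain ⟨z1, z2⟩ := L.coprime _ _ e1 hd
    exact ⟨sub_eq_zero.mp z1, sub_eq_zero.mp z2⟩
  -- explicit traces
  have eA : vA (C a1) (C a2) = monomial (ex 2 5) a1 + monomial (ex 1 6) (a1 + a2) +
      monomial (ex 0 7) (a1 + a2) := by
    rw [monomial_ex, monomial_ex, monomial_ex, vA, C_add]
    ring
  have eB : vB (C a1) (C a2) = monomial (ex 7 0) (a1 + a2) + monomial (ex 6 1) a2 := by
    rw [monomial_ex, monomial_ex, vB, C_add]
    ring
  have A25 : A (ex 2 5) = C (rootE 2 4 a1) := by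
    rw [hA]
    show tr 2 4 (ex 2 5) _ = _
    rw [eA, map_add, map_add, tr_mon_self 2 5 (by norm_num) (by norm_num),
      tr_mon_other 1 6 2 5 (by norm_num) (by norm_num) (by norm_num),
      tr_mon_other 0 7 2 5 (by norm_num) (by norm_num) (by norm_num)]
    ring
  have A16 : A (ex 1 6) = C (rootE 2 4 (a1 + a2)) := by
    rw [hA]
    show tr 2 4 (ex 1 6) _ = _
    rw [eA, map_add, map_add, tr_mon_self 1 6 (by norm_num) (by norm_num),
      tr_mon_other 2 5 1 6 (by norm_num) (by norm_num) (by norm_num),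
      tr_mon_other 0 7 1 6 (by norm_num) (by norm_num) (by norm_num)]
    ring
  have A70 : A (ex 7 0) = 0 := by
    rw [hA]
    show tr 2 4 (ex 7 0) _ = _
    rw [eA, map_add, map_add,
      tr_mon_other 2 5 7 0 (by norm_num) (by norm_num) (by norm_num),
      tr_mon_other 1 6 7 0 (by norm_num) (by norm_num) (by norm_num),
      tr_mon_other 0 7 7 0 (by norm_num) (by norm_num) (by norm_num)]
    ring
  have A61 : A (ex 6 1) = 0 := by
    rw [hA]
    show tr 2 4 (ex 6 1) _ = _
    rw [eA, map_add, map_add,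
      tr_mon_other 2 5 6 1 (by norm_num) (by norm_num) (by norm_num),
      tr_mon_other 1 6 6 1 (by norm_num) (by norm_num) (by norm_num),
      tr_mon_other 0 7 6 1 (by norm_num) (by norm_num) (by norm_num)]
    ring
  have B70 : B (ex 7 0) = C (rootE 2 4 (a1 + a2)) := by
    rw [hB]
    show tr 2 4 (ex 7 0) _ = _
    rw [eB, map_add, tr_mon_self 7 0 (by norm_num) (by norm_num),
      tr_mon_other 6 1 7 0 (by norm_num) (by norm_num) (by norm_num)]
    ring
  have B61 : B (ex 6 1) = C (rootE 2 4 a2) := by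
    rw [hB]
    show tr 2 4 (ex 6 1) _ = _
    rw [eB, map_add, tr_mon_self 6 1 (by norm_num) (by norm_num),
      tr_mon_other 7 0 6 1 (by norm_num) (by norm_num) (by norm_num)]
    ring
  have B25 : B (ex 2 5) = 0 := by
    rw [hB]
    show tr 2 4 (ex 2 5) _ = _
    rw [eB, map_add,
      tr_mon_other 7 0 2 5 (by norm_num) (by norm_num) (by norm_num),
      tr_mon_other 6 1 2 5 (by norm_num) (by norm_num) (by norm_num)]
    ring
  have B16 : B (ex 1 6) = 0 := by
    rw [hB]
    show tr 2 4 (ex 1 6) _ = _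
    rw [eB, map_add,
      tr_mon_other 7 0 1 6 (by norm_num) (by norm_num) (by norm_num),
      tr_mon_other 6 1 1 6 (by norm_num) (by norm_num) (by norm_num)]
    ring
  have hCz : ∀ a : k, C (rootE 2 4 a) = (0 : MvPolynomial (Fin 2) k) → a = 0 := by
    intro a ha
    exact rootE_eq_zero (C_eq_zero.mp ha)
  obtain ⟨s, hs⟩ := exists_tr_ne (DD * u * f ^ (n % 16))
    (mul_ne_zero (mul_ne_zero DD_ne hu0) (pow_ne_zero _ hf0))
  have hs' : c s ≠ 0 := hs
  have hfin : a1 = 0 ∧ a1 + a2 = 0 ∨ a2 = 0 ∧ a1 + a2 = 0 := by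
    by_cases hAs : A s = 0
    · by_cases hBs : B s = 0
      · exfalso
        have := heq s
        rw [hAs, hBs, zero_mul, zero_mul, add_zero] at this
        exact mul_ne_zero hs' (pow_ne_zero _ hf0) this
      · left
        have key : ∀ t, B t = 0 → A t = 0 := by
          intro t ht
          have h3 := (hrel s t).2
          rw [ht, mul_zero] at h3
          have h4 : c t = 0 := (mul_eq_zero.mp h3.symm).resolve_right hBs
          have h5 := (hrel s t).1
          rw [h4, zero_mul] at h5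
          exact (mul_eq_zero.mp h5).resolve_left hs'
        exact ⟨hCz _ (by rw [← A25]; exact key _ B25), hCz _ (by rw [← A16]; exact key _ B16)⟩
    · right
      have key : ∀ t, A t = 0 → B t = 0 := by
        intro t ht
        have h3 := (hrel s t).1
        rw [ht, mul_zero] at h3
        have h4 : c t = 0 := (mul_eq_zero.mp h3.symm).resolve_right hAs
        have h5 := (hrel s t).2
        rw [h4, zero_mul] at h5
        exact (mul_eq_zero.mp h5).resolve_left hs'
      exact ⟨hCz _ (by rw [← B61]; exact key _ A61), hCz _ (by rw [← B70]; exact key _ A70)⟩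
  have hz : a1 = 0 ∧ a2 = 0 := by
    rcases hfin with ⟨z1, z2⟩ | ⟨z1, z2⟩
    · exact ⟨z1, by rw [z1, zero_add] at z2; exact z2⟩
    · exact ⟨by rw [z1, add_zero] at z2; exact z2, z1⟩
  rw [hz.1, hz.2, C_0, zero_mul, zero_mul, add_zero] at H
  exact mul_ne_zero hu0 (pow_ne_zero _ hf0) H

lemma no_small {h : ℕ → MvPolynomial (Fin 2) k × MvPolynomial (Fin 2) k}
    (hh : ∀ j, Lev j (h j) ∧ Rec (X 0) (X 1) (h j).1 (h j).2 (h (j + 1)).1 (h (j + 1)).2)
    (f : MvPolynomial (Fin 2) k) (hf0 : f ≠ 0) (d : ℕ) (hf : f.totalDegree ≤ d) (E : ℕ) :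
    ∀ (j : ℕ) (u w1 w2 : MvPolynomial (Fin 2) k) (n : ℕ), d < j →
      u * f ^ n = w1 * (h (j + E + 1)).1 + w2 * (h (j + E + 1)).2 → u ≠ 0 →
      u.totalDegree ≤ d + 2 → w1.totalDegree ≤ E → w2.totalDegree ≤ E → False := by
  induction E with
  | zero =>
    intro j u w1 w2 n hj H hu0 hu h1 h2
    refine final (hh j).1 (hh j).2 u f w1 w2 n d (d + 2) (by simpa using H) hu0 hf0 hu hf h1 h2 ?_
    have := le_sj j
    unfold mj
    omega
  | succ E ih =>
    intro j u w1 w2 n hj H hu0 hu h1 h2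
    obtain ⟨u', w1', w2', hu', hud, hw1, hw2, H'⟩ := descent (hh (j + (E + 1))).2 u f w1 w2 n d
      (d + 2) (E + 1) H hu0 hf0 hu hf h1 h2
    exact ih j u' w1' w2' (n / 16) hj (by rw [add_assoc]; exact H') hu' (hud.trans (by omega))
      (hw1.trans (by omega)) (hw2.trans (by omega))

end Seq

/-- Characteristic two: `(2/5, 1/3, 1/5)` is good. -/
theorem good_two (k : Type*) [Field k] [CharP k 2] [PerfectRing k 2] :
    Good k 2 ![2 / 5, 1 / 3, 1 / 5] := by
  intro d f hd hf0 hf
  obtain ⟨h, hh⟩ := exists_seq (k := k)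
  set J := (d + 1) + d + 1 with hJ
  set N := (mj J + (d - 1)) / d with hN
  have hN1 : mj J ≤ N * d := by
    have h1 := Nat.div_add_mod (mj J + (d - 1)) d
    have h2 := Nat.mod_lt (mj J + (d - 1)) hd
    rw [← hN] at h1
    rw [mul_comm]
    omega
  have hN2 : N * d ≤ mj J + (d - 1) := Nat.div_mul_le_self _ _
  have hpow : ((2 : ℚ) ^ (4 * J) - 1) = 15 * sj J := by
    have h1 : ((15 * sj J + 1 : ℕ) : ℚ) = ((16 ^ J : ℕ) : ℚ) := by rw [sj_eq]
    push_cast at h1
    rw [pow_mul]
    norm_num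
    linarith
  refine ⟨4 * J, N, ![6 * sj J, 5 * sj J, 3 * sj J], by omega, ?_, ?_, ?_⟩
  · intro i
    simp only [Nat.cast_ofNat]
    rw [hpow]
    fin_cases i
    · simp; ring
    · simp; ring
    · simp; ring
  · simp only [Nat.cast_ofNat]
    rw [hpow]
    have h1 : ((mj J : ℕ) : ℚ) ≤ N * d := by exact_mod_cast hN1
    have h2 : ((mj J : ℕ) : ℚ) = 8 * sj J + 1 := by unfold mj; push_cast; ring
    rw [h2] at h1
    simp
    linarith
  · apply exists_small
    rintro ⟨a, b, hab⟩
    have e1 : (DD : MvPolynomial (Fin 2) k) ^ sj J = X 0 ^ (6 * sj J) * X 1 ^ (5 * sj J) *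
        (X 0 + X 1) ^ (3 * sj J) := by
      unfold DD
      rw [mul_pow, mul_pow, ← pow_mul, ← pow_mul, ← pow_mul]
    have e2 : (2 : ℕ) ^ (4 * J) = 16 ^ J := by rw [pow_mul]; norm_num
    obtain ⟨α, β, hαβ⟩ := (hh J).1.colon (f ^ N) ⟨a, b, by
      rw [e1, ← e2]
      simpa using hab⟩
    -- homogeneous components
    have hcomp := congrArg (homogeneousComponent (mj J + (N * d - mj J))) hαβ
    rw [map_add, mul_comm α, mul_comm β, comp_mul_left (hh J).1.hom1,
      comp_mul_left (hh J).1.hom2, show mj J + (N * d - mj J) = d * N by rw [mul_comm d]; omega,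
      homogeneousComponent_eq_self (hf.pow N)] at hcomp
    refine no_small hh f hf0 d hf.totalDegree_le d (d + 1) 1
      (homogeneousComponent (N * d - mj J) α) (homogeneousComponent (N * d - mj J) β) N
      (by omega) ?_ one_ne_zero (by simp) ?_ ?_
    · rw [one_mul, hcomp, ← hJ]
      ring
    · exact (homogeneousComponent_isHomogeneous _ _).totalDegree_le.trans (by omega)
    · exact (homogeneousComponent_isHomogeneous _ _).totalDegree_le.trans (by omega)

end Pool.Agent.MP98601e
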