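import Mathlib

/-!
# Definitions: sharp F-splitting, F-pure thresholds, the Frobenius alpha invariant of
`(ℙ¹, c₀[0] + c₁[∞] + c₂[-1]; 𝒪(1))`
-/

open MvPolynomial
open scoped ENNReal NNReal

namespace Pool.Agent.MP98601e

/-- Order of vanishing of `g ∈ R` along the prime divisor given by the height one prime `P`:
the length of `R_P / (g)`. -/
noncomputable def ordAt {R : Type*} [CommRing R] (P : PrimeSpectrum R) (g : R) : ℕ∞ :=
  Ring.ord (Localization.AtPrime P.asIdeal) (algebraMap R (Localization.AtPrime P.asIdeal) g)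

section Affine

variable {R : Type*} [CommRing R] [IsDomain R]

/-- `R(E)` for an effective Weil divisor `E` on the normal scheme `Spec R`: all fractions
`h = a / b` with `ord_P h = ord_P a - ord_P b ≥ - E(P)` for all height one primes `P`. -/
def divSections (E : PrimeSpectrum R → ℕ) : Set (FractionRing R) :=
  {h | ∃ a b : R, b ≠ 0 ∧ h * algebraMap R (FractionRing R) b = algebraMap R (FractionRing R) a ∧
    ∀ P : PrimeSpectrum R, P.asIdeal.height = 1 → ordAt P b ≤ ordAt P a + E P}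

/-- The map `R → F^e_* R(E)` splits, where `E` is an effective Weil divisor on `Spec R`.
(An `R`-linear map `F^e_* R(E) → R` is the same as a `p^{-e}`-linear additive map `φ` of the
fraction field which maps `R(E)` into `R`.) -/
def SplitsAt (p e : ℕ) (E : PrimeSpectrum R → ℕ) : Prop :=
  ∃ φ : FractionRing R →+ FractionRing R,
    (∀ (r : R) (h : FractionRing R),
      φ (algebraMap R (FractionRing R) r ^ p ^ e * h) = algebraMap R (FractionRing R) r * φ h) ∧
    (∀ h ∈ divSections E, ∃ r : R, φ h = algebraMap R (FractionRing R) r) ∧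
    φ 1 = 1

/-- The pair `(R, B)`, `B` an effective `ℝ`-divisor on `Spec R`, is sharply `F`-split: for some
`e > 0` the map `R → F^e_* R(⌈(p^e - 1) B⌉)` splits. -/
def SharplyFSplit (p : ℕ) (B : PrimeSpectrum R → ℝ) : Prop :=
  ∃ e : ℕ, 0 < e ∧ SplitsAt p e (fun P => ⌈((p : ℝ) ^ e - 1) * B P⌉₊)

end Affine

/-- The divisor `c₀ div(x) + c₁ div(y) + c₂ div(x + y)`. -/
noncomputable def bdry {A : Type*} [CommRing A] (c : Fin 3 → ℚ) (x y : A)
    (P : PrimeSpectrum A) : ℝ :=
  c 0 * (ordAt P x).toNat + c 1 * (ordAt P y).toNat + c 2 * (ordAt P (x + y)).toNat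

section Cone

variable (k : Type*) [Field k]

/-- The homogeneous maximal ideal `(x, y)` of `S = k[x,y]`. -/
noncomputable def irr : Ideal (MvPolynomial (Fin 2) k) :=
  RingHom.ker (constantCoeff : MvPolynomial (Fin 2) k →+* k)

instance irr_isPrime : (irr k).IsPrime := RingHom.ker_isPrime _

/-- The local ring `S_𝔪` of the cone. -/
abbrev ConeRing : Type _ := Localization.AtPrime (irr k)

variable {k}

/-- `fpt(S, Δ̃; f)`, the supremum of the `t ≥ 0` for which `(S_𝔪, Δ̃ + t div f)` is sharply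
`F`-split; here `Δ̃ = c₀ div(x) + c₁ div(y) + c₂ div(x + y)`. -/
noncomputable def fpt (p : ℕ) (c : Fin 3 → ℚ) (f : MvPolynomial (Fin 2) k) : ℝ≥0∞ :=
  ⨆ (t : ℝ≥0) (_ : SharplyFSplit p (fun P : PrimeSpectrum (ConeRing k) =>
    bdry c (algebraMap (MvPolynomial (Fin 2) k) (ConeRing k) (X 0))
      (algebraMap (MvPolynomial (Fin 2) k) (ConeRing k) (X 1)) P +
      t * (ordAt P (algebraMap (MvPolynomial (Fin 2) k) (ConeRing k) f)).toNat)), (t : ℝ≥0∞)

variable (k) in
/-- `α_F(ℙ¹, Δ; 𝒪(1))`: the infimum of `fpt(S, Δ̃; f) · deg f` over the nonzero forms `f ∈ S` of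
positive degree. -/
noncomputable def alphaF (p : ℕ) (c : Fin 3 → ℚ) : ℝ≥0∞ :=
  ⨅ (d : ℕ) (_ : 0 < d) (f : MvPolynomial (Fin 2) k) (_ : f ≠ 0) (_ : f.IsHomogeneous d),
    fpt p c f * d

end Cone

section Proj

variable {k : Type*} [Field k]

/-- The ideal `y` of `k[x,y]` is homogeneous. -/
def IsHom (y : Ideal (MvPolynomial (Fin 2) k)) : Prop :=
  ∀ f ∈ y, ∀ i : ℕ, homogeneousComponent i f ∈ y

/-- The local ring of `X = ℙ¹ = Proj S`, `S = k[x,y]`, at the point given by the homogeneous prime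
`y`, as a subset of `Frac S`: the fractions `a / b` of forms of the same degree with `b ∉ y`. For
`y = ⊥` this is the function field of `X`. -/
def localRing (y : Ideal (MvPolynomial (Fin 2) k)) : Set (FractionRing (MvPolynomial (Fin 2) k)) :=
  {h | ∃ (n : ℕ) (a b : MvPolynomial (Fin 2) k), a.IsHomogeneous n ∧ b.IsHomogeneous n ∧
    b ∉ y ∧ h * algebraMap _ (FractionRing (MvPolynomial (Fin 2) k)) b = algebraMap _ _ a}

/-- The stalk at `y` of the sheaf `𝒪_X(E)`, `E` an effective Weil divisor on `X`. Prime divisors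
of `X` are the homogeneous primes `P` of `S` of height one. -/
def stalkSections (E : PrimeSpectrum (MvPolynomial (Fin 2) k) → ℕ)
    (y : Ideal (MvPolynomial (Fin 2) k)) : Set (FractionRing (MvPolynomial (Fin 2) k)) :=
  {h | ∃ (n : ℕ) (a b : MvPolynomial (Fin 2) k), a.IsHomogeneous n ∧ b.IsHomogeneous n ∧
    b ≠ 0 ∧ h * algebraMap _ (FractionRing (MvPolynomial (Fin 2) k)) b = algebraMap _ _ a ∧
    ∀ P : PrimeSpectrum (MvPolynomial (Fin 2) k), P.asIdeal.height = 1 →
      IsHom P.asIdeal → P.asIdeal ≤ y →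
      ordAt P b ≤ ordAt P a + E P}

/-- The map of sheaves `𝒪_X → F^e_* 𝒪_X(E)` on `X = ℙ¹` splits: there is a `p^{-e}`-linear
additive self-map `φ` of the function field of `X` with `φ 1 = 1` which maps `𝒪_X(E)_y` into
`𝒪_{X,y}` for all points `y` of `X`. -/
def ProjSplitsAt (p e : ℕ) (E : PrimeSpectrum (MvPolynomial (Fin 2) k) → ℕ) : Prop :=
  ∃ φ : FractionRing (MvPolynomial (Fin 2) k) → FractionRing (MvPolynomial (Fin 2) k),
    (∀ g ∈ localRing ⊥, ∀ h ∈ localRing ⊥, φ (g + h) = φ g + φ h) ∧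
    (∀ g ∈ localRing ⊥, ∀ h ∈ localRing ⊥, φ (g ^ p ^ e * h) = g * φ h) ∧
    φ 1 = 1 ∧
    ∀ y : PrimeSpectrum (MvPolynomial (Fin 2) k), IsHom y.asIdeal → ¬ irr k ≤ y.asIdeal →
      ∀ h ∈ stalkSections E y.asIdeal, φ h ∈ localRing y.asIdeal

variable (k) in
/-- The pair `(ℙ¹, Δ)`, `Δ = c₀[x = 0] + c₁[y = 0] + c₂[x + y = 0]`, is globally `F`-regular: for
every effective divisor `C` on `ℙ¹` there is `e > 0` such that
`𝒪 → F^e_* 𝒪(⌈(p^e - 1) Δ⌉ + C)` splits. -/
def GloballyFRegular (p : ℕ) (c : Fin 3 → ℚ) : Prop :=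
  ∀ C : PrimeSpectrum (MvPolynomial (Fin 2) k) → ℕ, C.support.Finite →
    ∃ e : ℕ, 0 < e ∧ ProjSplitsAt p e
      (fun P => ⌈((p : ℝ) ^ e - 1) * bdry c (X 0) (X 1) P⌉₊ + C P)

end Proj

end Pool.Agent.MP98601e
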