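import Pool.Agent.Work.MP_98601e_ag.Trace

/-!
Binary forms: membership in `(x^q, y^q)` and the dimension count.
-/

open MvPolynomial

namespace Pool.Agent.MP98601e

variable {k : Type*} [Field k]

lemma homog_exp {g : MvPolynomial (Fin 2) k} {n : ℕ} (hg : g.IsHomogeneous n)
    {m : Fin 2 →₀ ℕ} (hm : coeff m g ≠ 0) : m 0 + m 1 = n := by
  have := hg hm
  rw [← this]
  simp [Finsupp.weight_apply, Finsupp.sum_fintype]

/-- membership in `(x^q, y^q)` -/
lemma exists_of_all_large (q : ℕ) (g : MvPolynomial (Fin 2) k)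
    (h : ∀ m : Fin 2 →₀ ℕ, coeff m g ≠ 0 → q ≤ m 0 ∨ q ≤ m 1) :
    ∃ a b : MvPolynomial (Fin 2) k, g = X 0 ^ q * a + X 1 ^ q * b := by
  have key : g ∈ Ideal.span ((fun s => monomial s (1 : k)) ''
      ({Finsupp.single 0 q, Finsupp.single 1 q} : Set (Fin 2 →₀ ℕ))) := by
    rw [mem_ideal_span_monomial_image]
    intro m hm
    rcases h m (mem_support_iff.mp hm) with h0 | h1
    · exact ⟨Finsupp.single 0 q, by simp, by simpa using h0⟩
    · exact ⟨Finsupp.single 1 q, by simp, by simpa using h1⟩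
  rw [Set.image_pair, Ideal.mem_span_pair] at key
  obtain ⟨a, b, hab⟩ := key
  refine ⟨a, b, ?_⟩
  rw [← hab, X_pow_eq_monomial, X_pow_eq_monomial]
  ring

/-- a form not in `(x^q, y^q)` has a small monomial -/
lemma exists_small (q : ℕ) (g : MvPolynomial (Fin 2) k)
    (h : ¬ ∃ a b : MvPolynomial (Fin 2) k, g = X 0 ^ q * a + X 1 ^ q * b) :
    ∃ m : Fin 2 →₀ ℕ, coeff m g ≠ 0 ∧ m 0 < q ∧ m 1 < q := by
  by_contra hcon
  push Not at hcon
  apply h
  apply exists_of_all_large
  intro m hm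
  by_contra h2
  push Not at h2
  exact absurd (hcon m hm h2.1) (by omega)

/-- the monomial `x^i y^j` as an exponent -/
noncomputable def ex (i j : ℕ) : Fin 2 →₀ ℕ := Finsupp.single 0 i + Finsupp.single 1 j

@[simp] lemma ex_zero (i j : ℕ) : ex i j 0 = i := by simp [ex]
@[simp] lemma ex_one (i j : ℕ) : ex i j 1 = j := by simp [ex]

lemma eq_ex (m : Fin 2 →₀ ℕ) : m = ex (m 0) (m 1) := by
  ext i; fin_cases i <;> simp

lemma ex_inj {i j i' j' : ℕ} : ex i j = ex i' j' ↔ i = i' ∧ j = j' := by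
  constructor
  · intro h
    exact ⟨by simpa using DFunLike.congr_fun h 0, by simpa using DFunLike.congr_fun h 1⟩
  · rintro ⟨rfl, rfl⟩; rfl

lemma monomial_ex (i j : ℕ) (c : k) :
    (monomial (ex i j) c : MvPolynomial (Fin 2) k) = C c * (X 0 ^ i * X 1 ^ j) := by
  rw [ex, X_pow_eq_monomial, X_pow_eq_monomial, monomial_mul, C_mul_monomial]
  simp

lemma isHomogeneous_ex (i j : ℕ) (c : k) :
    (monomial (ex i j) c : MvPolynomial (Fin 2) k).IsHomogeneous (i + j) := by
  apply isHomogeneous_monomial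
  rw [Finsupp.degree_eq_sum]
  simp [Fin.sum_univ_two]

/-- the form of degree `n` with given coefficients -/
noncomputable def formOf (n : ℕ) : (Fin (n + 1) → k) →ₗ[k] MvPolynomial (Fin 2) k :=
  ∑ i : Fin (n + 1), (monomial (ex i (n - i))).comp (LinearMap.proj i)

lemma formOf_apply (n : ℕ) (v : Fin (n + 1) → k) :
    formOf n v = ∑ i : Fin (n + 1), monomial (ex i (n - i)) (v i) := by
  simp [formOf]

lemma formOf_isHomogeneous (n : ℕ) (v : Fin (n + 1) → k) : (formOf n v).IsHomogeneous n := by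
  rw [formOf_apply]
  apply IsHomogeneous.sum
  intro i _
  have := isHomogeneous_ex (i : ℕ) (n - i) (v i)
  have h : (i : ℕ) + (n - i) = n := by omega
  rwa [h] at this

lemma coeff_formOf (n : ℕ) (v : Fin (n + 1) → k) (i : Fin (n + 1)) :
    coeff (ex i (n - i)) (formOf n v) = v i := by
  rw [formOf_apply, coeff_sum, Finset.sum_eq_single i]
  · rw [coeff_monomial, if_pos rfl]
  · intro j _ hji
    rw [coeff_monomial, if_neg]
    intro h
    apply hji
    rw [ex_inj] at h
    exact Fin.ext h.1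
  · intro h; exact absurd (Finset.mem_univ i) h

/-- Dimension count: a nonzero form `f` of degree `n` with `G f ∈ (x^q, y^q)`. -/
lemma exists_form (q n D : ℕ) (G : MvPolynomial (Fin 2) k) (hG : G.IsHomogeneous D)
    (hn : 2 * q < 2 * n + D + 2) :
    ∃ f : MvPolynomial (Fin 2) k, f ≠ 0 ∧ f.IsHomogeneous n ∧
      ∃ a b : MvPolynomial (Fin 2) k, G * f = X 0 ^ q * a + X 1 ^ q * b := by
  classical
  set N := n + D with hN
  let T : (Fin (n + 1) → k) →ₗ[k] (Fin (2 * q - 1 - N) → k) :=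
    LinearMap.pi (fun j => (lcoeff k (ex (N + 1 - q + j) (N - (N + 1 - q + j)))).comp
      ((LinearMap.mulLeft k G).comp (formOf n)))
  have hker : LinearMap.ker T ≠ ⊥ := by
    apply LinearMap.ker_ne_bot_of_finrank_lt
    rw [Module.finrank_fin_fun, Module.finrank_fin_fun]
    omega
  obtain ⟨v, hv, hv0⟩ := (Submodule.ne_bot_iff _).mp hker
  refine ⟨formOf n v, ?_, formOf_isHomogeneous n v, ?_⟩
  · intro h
    apply hv0
    ext i
    rw [← coeff_formOf n v i, h]
    simp
  · apply exists_of_all_large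
    intro m hm
    by_contra hcon
    push Not at hcon
    have hdeg := homog_exp (hG.mul (formOf_isHomogeneous n v)) hm
    have hj : m 0 - (N + 1 - q) < 2 * q - 1 - N := by omega
    have h1 := congrFun (LinearMap.mem_ker.mp hv) ⟨m 0 - (N + 1 - q), hj⟩
    apply hm
    have h2 : m = ex (N + 1 - q + (m 0 - (N + 1 - q))) (N - (N + 1 - q + (m 0 - (N + 1 - q)))) := by
      rw [eq_ex m, ex_inj]
      simp only [ex_zero, ex_one]
      omega
    rw [h2]
    simpa [T] using h1

end Pool.Agent.MP98601e
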