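import Pool.Agent.Work.MP_98601e_ag.Split
import Pool.Agent.Work.MP_98601e_ag.Forms

/-!
The general criterion: lower bounds for F-pure thresholds from small monomials, upper bounds from
the dimension count.
-/

open MvPolynomial
open scoped ENNReal NNReal

set_option linter.unusedSectionVars false

namespace Pool.Agent.MP98601e

section Order

variable {R : Type*} [CommRing R] [IsDomain R] [UniqueFactorizationMonoid R]

lemma coe_toNat_ordAt (P : PrimeSpectrum R) (hP : P.asIdeal.height = 1) {x : R} (hx : x ≠ 0) :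
    (((ordAt P x).toNat : ℕ) : ℕ∞) = ordAt P x :=
  ENat.natCast_toNat (ordAt_ne_top P hP hx)

lemma ordAt_gen (P : PrimeSpectrum R) (hP : P.asIdeal.height = 1) {x y z f : R} (hx : x ≠ 0)
    (hy : y ≠ 0) (hz : z ≠ 0) (hf : f ≠ 0) (A : Fin 3 → ℕ) (N : ℕ) :
    ordAt P (x ^ A 0 * y ^ A 1 * z ^ A 2 * f ^ N) =
      ((A 0 * (ordAt P x).toNat + A 1 * (ordAt P y).toNat + A 2 * (ordAt P z).toNat +
        N * (ordAt P f).toNat : ℕ) : ℕ∞) := by
  rw [ordAt_mul P (pow_ne_zero _ hf), ordAt_mul P (pow_ne_zero _ hz),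
    ordAt_mul P (pow_ne_zero _ hy), ordAt_pow P hx, ordAt_pow P hy, ordAt_pow P hz,
    ordAt_pow P hf]
  push_cast
  rw [coe_toNat_ordAt P hP hx, coe_toNat_ordAt P hP hy, coe_toNat_ordAt P hP hz,
    coe_toNat_ordAt P hP hf]

end Order

lemma exists_A (p : ℕ) (c : Fin 3 → ℚ) (e0 : ℕ) (a : Fin 3 → ℕ)
    (ha : ∀ i, (a i : ℚ) = ((p : ℚ) ^ e0 - 1) * c i) (n : ℕ) :
    ∃ B : Fin 3 → ℕ, ∀ i, (B i : ℚ) = ((p : ℚ) ^ (e0 * n) - 1) * c i := by
  refine ⟨fun i => a i * ∑ j ∈ Finset.range n, (p ^ e0) ^ j, fun i => ?_⟩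
  push_cast
  rw [ha i, pow_mul]
  have := geom_sum_mul ((p : ℚ) ^ e0) n
  linear_combination c i * this

section Cone

variable {k : Type*} [Field k]

instance : IsNoetherianRing (ConeRing k) :=
  IsLocalization.isNoetherianRing (irr k).primeCompl (ConeRing k) inferInstance

lemma toCone_injective :
    Function.Injective (algebraMap (MvPolynomial (Fin 2) k) (ConeRing k)) :=
  IsLocalization.injective (ConeRing k) (irr k).primeCompl_le_nonZeroDivisors

lemma toCone_ne_zero {f : MvPolynomial (Fin 2) k} (hf : f ≠ 0) :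
    algebraMap (MvPolynomial (Fin 2) k) (ConeRing k) f ≠ 0 := by
  simpa using (map_ne_zero_iff _ toCone_injective).mpr hf

lemma X01_ne_zero : (X 0 + X 1 : MvPolynomial (Fin 2) k) ≠ 0 := by
  intro h
  have := congrArg (coeff (Finsupp.single 0 1)) h
  rw [coeff_add, coeff_X, coeff_X, if_pos rfl, if_neg, coeff_zero, add_zero] at this
  · exact one_ne_zero this
  · intro h1
    have := DFunLike.congr_fun h1 0
    simp at this

lemma X_mem_max (i : Fin 2) : algebraMap (MvPolynomial (Fin 2) k) (ConeRing k) (X i) ∈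
    IsLocalRing.maximalIdeal (ConeRing k) := by
  rw [IsLocalization.AtPrime.to_map_mem_maximal_iff (ConeRing k) (irr k)]
  show constantCoeff (X i) = 0
  simp

variable (p : ℕ) [Fact p.Prime] [CharP k p] [PerfectRing k p]

/-- A form `g` with a monomial with exponents `< q` gives a functional on the fraction field of
the cone ring. -/
lemma exists_cone_functional {R : Type*} [CommRing R] [IsDomain R]
    [Algebra (MvPolynomial (Fin 2) k) R] [IsLocalization (irr k).primeCompl R]
    (e : ℕ) (g : MvPolynomial (Fin 2) k) (n : ℕ)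
    (hg : g.IsHomogeneous n) (m : Fin 2 →₀ ℕ) (hm : coeff m g ≠ 0) (h0 : m 0 < p ^ e)
    (h1 : m 1 < p ^ e) :
    ∃ Φ : FractionRing R →+ FractionRing R,
      (∀ (r : R) (h : FractionRing R),
        Φ (algebraMap R (FractionRing R) r ^ p ^ e * h) =
          algebraMap R (FractionRing R) r * Φ h) ∧
      (∀ r : R, ∃ s : R, Φ (algebraMap R (FractionRing R) r) =
        algebraMap R (FractionRing R) s) ∧
      Φ (algebraMap R (FractionRing R) (algebraMap (MvPolynomial (Fin 2) k) R g)) = 1 := by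
  have hp : 0 < p ^ e := pow_pos (Fact.out : p.Prime).pos e
  obtain ⟨φ, hφ, hφg, -⟩ := exists_functional p e g n hg m hm h0 h1
  let K := FractionRing R
  have hst : ∀ s : MvPolynomial (Fin 2) k, algebraMap (MvPolynomial (Fin 2) k) K s =
      algebraMap R K (algebraMap (MvPolynomial (Fin 2) k) R s) :=
    fun s => IsScalarTower.algebraMap_apply (MvPolynomial (Fin 2) k) R K s
  have hinjK : Function.Injective (algebraMap R K) := IsFractionRing.injective _ _
  have hinjR : Function.Injective (algebraMap (MvPolynomial (Fin 2) k) R) :=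
    IsLocalization.injective R (irr k).primeCompl_le_nonZeroDivisors
  have hinj : Function.Injective (algebraMap (MvPolynomial (Fin 2) k) K) := by
    intro a b hab
    rw [hst, hst] at hab
    exact hinjR (hinjK hab)
  have hfaith : FaithfulSMul (MvPolynomial (Fin 2) k) K :=
    (faithfulSMul_iff_algebraMap_injective _ _).mpr hinj
  have hfrac : IsFractionRing (MvPolynomial (Fin 2) k) K := by
    apply IsFractionRing.of_field
    intro z
    obtain ⟨u, v, hv, rfl⟩ := IsFractionRing.div_surjective (A := R) z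
    obtain ⟨⟨a, s⟩, ha⟩ := IsLocalization.surj (irr k).primeCompl u
    obtain ⟨⟨b, t⟩, hb⟩ := IsLocalization.surj (irr k).primeCompl v
    have hs : (s : MvPolynomial (Fin 2) k) ≠ 0 := fun h => s.2 (by rw [h]; exact Ideal.zero_mem _)
    have ht : (t : MvPolynomial (Fin 2) k) ≠ 0 := fun h => t.2 (by rw [h]; exact Ideal.zero_mem _)
    have hs' : algebraMap (MvPolynomial (Fin 2) k) K s ≠ 0 := by
      simpa using (map_ne_zero_iff _ hinj).mpr hs
    have ht' : algebraMap (MvPolynomial (Fin 2) k) K t ≠ 0 := by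
      simpa using (map_ne_zero_iff _ hinj).mpr ht
    have hv' : algebraMap R K v ≠ 0 := by
      simpa using (map_ne_zero_iff _ hinjK).mpr (nonZeroDivisors.ne_zero hv)
    have ha' := congrArg (algebraMap R K) ha
    have hb' := congrArg (algebraMap R K) hb
    simp only [map_mul, ← hst] at ha' hb'
    have hb0 : algebraMap (MvPolynomial (Fin 2) k) K b ≠ 0 := by
      rw [← hb']; exact mul_ne_zero hv' ht'
    refine ⟨a * t, b * s, ?_⟩
    rw [map_mul, map_mul, ← ha', ← hb', div_eq_div_iff hv'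
      (mul_ne_zero (mul_ne_zero hv' ht') hs')]
    ring
  obtain ⟨Φ, hΦ, hΦs, hΦd⟩ := exists_extend (K := K) (p ^ e) hp φ hφ
  refine ⟨Φ, fun r h => hΦ _ _, ?_, ?_⟩
  · intro r
    obtain ⟨⟨a, s⟩, ha⟩ := IsLocalization.surj (irr k).primeCompl r
    have hs : (s : MvPolynomial (Fin 2) k) ≠ 0 := fun h => s.2 (by rw [h]; exact Ideal.zero_mem _)
    have hs' : algebraMap (MvPolynomial (Fin 2) k) K s ≠ 0 := by
      simpa using (map_ne_zero_iff _ hinj).mpr hs
    have ha' := congrArg (algebraMap R K) ha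
    simp only [map_mul, ← hst] at ha'
    have e1 : algebraMap R K r = algebraMap (MvPolynomial (Fin 2) k) K a /
        algebraMap (MvPolynomial (Fin 2) k) K s := by
      rw [eq_div_iff hs', ha']
    refine ⟨IsLocalization.mk' R (φ (a * s ^ (p ^ e - 1))) s, ?_⟩
    rw [e1, hΦd _ _ hs, div_eq_iff hs', hst s, ← map_mul, IsLocalization.mk'_spec, hst]
  · rw [← hst, hΦs, hφg, map_one]

/-- Splitting of the cone pair from a form with a small monomial. -/
theorem sharplyFSplit_of_form (c : Fin 3 → ℚ) (f : MvPolynomial (Fin 2) k) (hf : f ≠ 0) (d : ℕ)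
    (hfd : f.IsHomogeneous d) (e N : ℕ) (he : 0 < e) (A : Fin 3 → ℕ)
    (hA : ∀ i, (A i : ℚ) = ((p : ℚ) ^ e - 1) * c i) (m : Fin 2 →₀ ℕ)
    (hm : coeff m (X 0 ^ A 0 * X 1 ^ A 1 * (X 0 + X 1) ^ A 2 * f ^ N) ≠ 0)
    (h0 : m 0 < p ^ e) (h1 : m 1 < p ^ e) (t : ℝ≥0) (ht : ((p : ℝ) ^ e - 1) * t = N) :
    SharplyFSplit p (fun P : PrimeSpectrum (ConeRing k) =>
      bdry c (algebraMap (MvPolynomial (Fin 2) k) (ConeRing k) (X 0))
        (algebraMap (MvPolynomial (Fin 2) k) (ConeRing k) (X 1)) P +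
        t * (ordAt P (algebraMap (MvPolynomial (Fin 2) k) (ConeRing k) f)).toNat) := by
  refine ⟨e, he, ?_⟩
  have hg : (X 0 ^ A 0 * X 1 ^ A 1 * (X 0 + X 1) ^ A 2 * f ^ N :
      MvPolynomial (Fin 2) k).IsHomogeneous (1 * A 0 + 1 * A 1 + 1 * A 2 + d * N) :=
    ((((isHomogeneous_X k 0).pow _).mul ((isHomogeneous_X k 1).pow _)).mul
      (((isHomogeneous_X k 0).add (isHomogeneous_X k 1)).pow _)).mul (hfd.pow _)
  obtain ⟨Φ, hΦ, hR, hΦ1⟩ := exists_cone_functional (R := ConeRing k) p e _ _ hg m hm h0 h1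
  refine splitsAt_of _ _ ?_ Φ hΦ hR hΦ1
  intro P hP
  have hx := toCone_ne_zero (k := k) (X_ne_zero (R := k) (0 : Fin 2))
  have hy := toCone_ne_zero (k := k) (X_ne_zero (R := k) (1 : Fin 2))
  have hxy := toCone_ne_zero (k := k) X01_ne_zero
  have hf' := toCone_ne_zero hf
  simp only [map_mul, map_pow]
  rw [ordAt_gen P hP hx hy hxy hf' A N]
  have hA' : ∀ i, (A i : ℝ) = ((p : ℝ) ^ e - 1) * c i := by
    intro i
    have := congrArg (fun q : ℚ => (q : ℝ)) (hA i)
    simpa using this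
  have key : ((p : ℝ) ^ e - 1) * (bdry c (algebraMap (MvPolynomial (Fin 2) k) (ConeRing k) (X 0))
        (algebraMap (MvPolynomial (Fin 2) k) (ConeRing k) (X 1)) P +
        t * (ordAt P (algebraMap (MvPolynomial (Fin 2) k) (ConeRing k) f)).toNat) =
      ((A 0 * (ordAt P (algebraMap (MvPolynomial (Fin 2) k) (ConeRing k) (X 0))).toNat +
        A 1 * (ordAt P (algebraMap (MvPolynomial (Fin 2) k) (ConeRing k) (X 1))).toNat +
        A 2 * (ordAt P (algebraMap (MvPolynomial (Fin 2) k) (ConeRing k) (X 0 + X 1))).toNat +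
        N * (ordAt P (algebraMap (MvPolynomial (Fin 2) k) (ConeRing k) f)).toNat : ℕ) : ℝ) := by
    rw [bdry, ← map_add]
    generalize (ordAt P (algebraMap (MvPolynomial (Fin 2) k) (ConeRing k) (X 0))).toNat = ox
    generalize (ordAt P (algebraMap (MvPolynomial (Fin 2) k) (ConeRing k) (X 1))).toNat = oy
    generalize (ordAt P (algebraMap (MvPolynomial (Fin 2) k) (ConeRing k) (X 0 + X 1))).toNat = oz
    generalize (ordAt P (algebraMap (MvPolynomial (Fin 2) k) (ConeRing k) f)).toNat = o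
    push_cast
    rw [hA' 0, hA' 1, hA' 2, ← ht]
    ring
  rw [key, Nat.ceil_natCast]

end Cone

end Pool.Agent.MP98601e
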