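import Pool.Agent.Work.MP_98601e_ag.Global

/-!
The framework theorem: if the coefficients are `Good`, the Frobenius alpha invariant of the pair on
the line is `1 - deg Δ / 2` and it is not attained.
-/

open MvPolynomial
open scoped ENNReal NNReal

set_option linter.unusedSectionVars false

namespace Pool.Agent.MP98601e

variable {k : Type*} [Field k] (p : ℕ) [Fact p.Prime] [CharP k p] [PerfectRing k p]

lemma lt_fpt_mul (c : Fin 3 → ℚ) (h : Good k p c) (d : ℕ) (f : MvPolynomial (Fin 2) k)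
    (hd : 0 < d) (hf : f ≠ 0) (hfd : f.IsHomogeneous d) :
    ENNReal.ofReal (1 - ((c 0 + c 1 + c 2 : ℚ) : ℝ) / 2) < fpt p c f * d := by
  have hp1 : 1 < p := (Fact.out : p.Prime).one_lt
  obtain ⟨e, N, A, he, hA, hlt, m, hm, h0, h1⟩ := h d f hd hf hfd
  have hq1 : (1 : ℝ) < (p : ℝ) ^ e := one_lt_pow₀ (by exact_mod_cast hp1) (by omega)
  have hq : (0 : ℝ) < (p : ℝ) ^ e - 1 := by linarith
  set t : ℝ≥0 := ⟨N / ((p : ℝ) ^ e - 1), by positivity⟩ with ht
  have ht' : ((p : ℝ) ^ e - 1) * t = N := by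
    rw [ht]
    show ((p : ℝ) ^ e - 1) * (N / ((p : ℝ) ^ e - 1)) = N
    field_simp
  have hs := sharplyFSplit_of_form p c f hf d hfd e N he A hA m hm h0 h1 t ht'
  have h2 : (t : ℝ≥0∞) ≤ fpt p c f := le_iSup₂_of_le t hs le_rfl
  have hlt' : ((p : ℝ) ^ e - 1) * (1 - ((c 0 + c 1 + c 2 : ℚ) : ℝ) / 2) < N * d := by
    have : (((((p : ℚ) ^ e - 1) * (1 - (c 0 + c 1 + c 2) / 2) : ℚ)) : ℝ) < ((N * d : ℚ) : ℝ) := by
      exact_mod_cast hlt
    push_cast at this ⊢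
    linarith
  have h3 : 1 - ((c 0 + c 1 + c 2 : ℚ) : ℝ) / 2 < (t : ℝ) * d := by
    have h4 : ((p : ℝ) ^ e - 1) * ((t : ℝ) * d) = N * d := by rw [← mul_assoc, ht']
    rw [← h4] at hlt'
    exact lt_of_mul_lt_mul_left hlt' hq.le
  have h5 : ENNReal.ofReal (1 - ((c 0 + c 1 + c 2 : ℚ) : ℝ) / 2) < (t : ℝ≥0∞) * d := by
    have h6 : (t : ℝ≥0∞) * d = ENNReal.ofReal ((t : ℝ) * d) := by
      rw [ENNReal.ofReal_mul (NNReal.coe_nonneg t), ENNReal.ofReal_coe_nnreal, ENNReal.ofReal_natCast]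
    rw [h6]
    apply (ENNReal.ofReal_lt_ofReal_iff _).mpr h3
    have : (0 : ℝ) < N := by
      by_contra hcon
      have hN : N = 0 := by
        have : (N : ℝ) ≤ 0 := not_lt.mp hcon
        exact_mod_cast le_antisymm this (Nat.cast_nonneg _)
      rw [hN] at hm
      -- degree zero part: `N = 0` is impossible unless the right side is positive
      by_cases hpos : 0 ≤ 1 - ((c 0 + c 1 + c 2 : ℚ) : ℝ) / 2
      · rw [hN] at hlt'
        have h7 := mul_nonneg hq.le hpos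
        simp only [Nat.cast_zero, zero_mul] at hlt'
        linarith
      · push Not at hpos
        have hsum : (2 : ℚ) < c 0 + c 1 + c 2 := by
          have : (2 : ℝ) < ((c 0 + c 1 + c 2 : ℚ) : ℝ) := by linarith
          exact_mod_cast this
        have hdeg : (X 0 ^ A 0 * X 1 ^ A 1 * (X 0 + X 1) ^ A 2 * f ^ 0 :
            MvPolynomial (Fin 2) k).IsHomogeneous (1 * A 0 + 1 * A 1 + 1 * A 2 + d * 0) :=
          ((((isHomogeneous_X k 0).pow _).mul ((isHomogeneous_X k 1).pow _)).mul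
            (((isHomogeneous_X k 0).add (isHomogeneous_X k 1)).pow _)).mul (hfd.pow _)
        have h8 := homog_exp hdeg hm
        have h9 : ((A 0 + A 1 + A 2 : ℕ) : ℚ) = ((p : ℚ) ^ e - 1) * (c 0 + c 1 + c 2) := by
          push_cast
          rw [hA 0, hA 1, hA 2]; ring
        have h10 : ((m 0 + m 1 : ℕ) : ℚ) ≤ 2 * ((p : ℚ) ^ e - 1) := by
          have : (m 0 + m 1 : ℕ) + 2 ≤ 2 * p ^ e := by omega
          have : (((m 0 + m 1 : ℕ) + 2 : ℕ) : ℚ) ≤ ((2 * p ^ e : ℕ) : ℚ) := by exact_mod_cast this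
          push_cast at this ⊢
          linarith
        have h11 : m 0 + m 1 = A 0 + A 1 + A 2 := by omega
        rw [h11, h9] at h10
        have h12 : (0 : ℚ) < (p : ℚ) ^ e - 1 := by
          have : (1 : ℚ) < (p : ℚ) ^ e := one_lt_pow₀ (by exact_mod_cast hp1) (by omega)
          linarith
        nlinarith
    have hdR : (0 : ℝ) < d := by exact_mod_cast hd
    have htpos : (0 : ℝ) < t := by
      rw [ht]
      exact div_pos this hq
    exact mul_pos htpos hdR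
  exact lt_of_lt_of_le h5 (mul_le_mul_left h2 _)

lemma alphaF_le (c : Fin 3 → ℚ) (hδ : c 0 + c 1 + c 2 < 2) (e0 : ℕ) (he0 : 0 < e0)
    (a : Fin 3 → ℕ) (ha : ∀ i, (a i : ℚ) = ((p : ℚ) ^ e0 - 1) * c i) (j : ℕ) (hj : 0 < j) :
    alphaF k p c ≤ ENNReal.ofReal (1 - ((c 0 + c 1 + c 2 : ℚ) : ℝ) / 2 + 1 / (p : ℝ) ^ (e0 * j))
    := by
  have hp1 : 1 < p := (Fact.out : p.Prime).one_lt
  obtain ⟨A, hA⟩ := exists_A p c e0 a ha j
  set q := p ^ (e0 * j) with hq
  have hqR : ((q : ℕ) : ℝ) = (p : ℝ) ^ (e0 * j) := by rw [hq]; push_cast; rfl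
  have hqQ : ((q : ℕ) : ℚ) = (p : ℚ) ^ (e0 * j) := by rw [hq]; push_cast; rfl
  have hq1 : 1 < q := Nat.one_lt_pow (Nat.mul_ne_zero (by omega) (by omega)) hp1
  have hG : (X 0 ^ A 0 * X 1 ^ A 1 * (X 0 + X 1) ^ A 2 :
      MvPolynomial (Fin 2) k).IsHomogeneous (1 * A 0 + 1 * A 1 + 1 * A 2) :=
    (((isHomogeneous_X k 0).pow _).mul ((isHomogeneous_X k 1).pow _)).mul
      (((isHomogeneous_X k 0).add (isHomogeneous_X k 1)).pow _)
  set D := 1 * A 0 + 1 * A 1 + 1 * A 2 with hD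
  have hDQ : (D : ℚ) = ((q : ℚ) - 1) * (c 0 + c 1 + c 2) := by
    rw [hD, hqQ]
    push_cast
    rw [hA 0, hA 1, hA 2]
    ring
  have hDlt : D < 2 * (q - 1) := by
    have h1 : (D : ℚ) < 2 * ((q : ℚ) - 1) := by
      rw [hDQ]
      have : (1 : ℚ) < q := by exact_mod_cast hq1
      nlinarith
    have h2 : ((2 * (q - 1) : ℕ) : ℚ) = 2 * ((q : ℚ) - 1) := by
      push_cast [Nat.cast_sub hq1.le]
      ring
    rw [← h2] at h1
    exact_mod_cast h1
  set n := (2 * (q - 1) - D) / 2 + 1 with hn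
  obtain ⟨f, hf0, hfn, u, v, huv⟩ := exists_form q n D
    (X 0 ^ A 0 * X 1 ^ A 1 * (X 0 + X 1) ^ A 2 : MvPolynomial (Fin 2) k) hG (by omega)
  have hfpt : fpt p c f ≤ ENNReal.ofReal (1 / (p : ℝ) ^ (e0 * j)) := by
    apply iSup₂_le
    intro t ht
    have := le_of_sharplyFSplit p c e0 he0 a ha j A hA f hf0 ⟨u, v, huv⟩ t ht
    rw [← ENNReal.ofReal_coe_nnreal]
    exact ENNReal.ofReal_le_ofReal this
  have h1 : alphaF k p c ≤ fpt p c f * n :=
    iInf_le_of_le n (iInf_le_of_le (by omega) (iInf_le_of_le f (iInf_le_of_le hf0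
      (iInf_le _ hfn))))
  refine h1.trans ((mul_le_mul_left hfpt _).trans ?_)
  rw [← ENNReal.ofReal_natCast, ← ENNReal.ofReal_mul (by positivity)]
  apply ENNReal.ofReal_le_ofReal
  have hqpos : (0 : ℝ) < q := by exact_mod_cast (by omega : 0 < q)
  have hn2 : (n : ℝ) ≤ ((q : ℝ) - 1) * (1 - ((c 0 + c 1 + c 2 : ℚ) : ℝ) / 2) + 1 := by
    have h2 : 2 * (n - 1) ≤ 2 * (q - 1) - D := by omega
    have h3 : 2 * n + D ≤ 2 * q := by omega
    have h4 : (2 * (n : ℝ) + D) ≤ 2 * q := by exact_mod_cast h3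
    have h5 : (D : ℝ) = ((q : ℝ) - 1) * ((c 0 + c 1 + c 2 : ℚ) : ℝ) := by
      have := congrArg (fun z : ℚ => (z : ℝ)) hDQ
      push_cast at this ⊢
      linarith
    rw [h5] at h4
    linarith
  rw [← hqR, div_mul_eq_mul_div, one_mul, div_le_iff₀ hqpos]
  have h6 : (0 : ℝ) ≤ 1 - ((c 0 + c 1 + c 2 : ℚ) : ℝ) / 2 := by
    have : ((c 0 + c 1 + c 2 : ℚ) : ℝ) < 2 := by exact_mod_cast hδ
    linarith
  have h7 : (1 - ((c 0 + c 1 + c 2 : ℚ) : ℝ) / 2 + 1 / (q : ℝ)) * q =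
      (1 - ((c 0 + c 1 + c 2 : ℚ) : ℝ) / 2) * q + 1 := by
    field_simp
  rw [h7]
  nlinarith

/-- **Framework theorem.** -/
theorem framework (c : Fin 3 → ℚ) (hδ : c 0 + c 1 + c 2 < 2) (e0 : ℕ) (he0 : 0 < e0)
    (a : Fin 3 → ℕ) (ha : ∀ i, (a i : ℚ) = ((p : ℚ) ^ e0 - 1) * c i) (h : Good k p c) :
    GloballyFRegular k p c ∧
    alphaF k p c = ENNReal.ofReal (1 - ((c 0 + c 1 + c 2 : ℚ) : ℝ) / 2) ∧
    ∀ (d : ℕ) (f : MvPolynomial (Fin 2) k), 0 < d → f ≠ 0 → f.IsHomogeneous d →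
      alphaF k p c < fpt p c f * d := by
  have hle : alphaF k p c ≤ ENNReal.ofReal (1 - ((c 0 + c 1 + c 2 : ℚ) : ℝ) / 2) := by
    apply ENNReal.le_of_forall_pos_le_add
    intro ε hε _
    have hp1 : (1 : ℝ) < p := by exact_mod_cast (Fact.out : p.Prime).one_lt
    obtain ⟨j, hj⟩ := exists_pow_lt_of_lt_one (show (0 : ℝ) < ε from hε)
      (show (1 / (p : ℝ)) < 1 by rw [div_lt_one (by linarith)]; exact hp1)
    refine (alphaF_le p c hδ e0 he0 a ha (j + 1) (Nat.succ_pos j)).trans ?_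
    refine ENNReal.ofReal_add_le.trans ?_
    gcongr
    rw [← ENNReal.ofReal_coe_nnreal]
    apply ENNReal.ofReal_le_ofReal
    refine le_trans ?_ hj.le
    rw [one_div_pow]
    apply one_div_le_one_div_of_le (by positivity)
    apply pow_le_pow_right₀ hp1.le
    calc j ≤ j + 1 := Nat.le_succ j
      _ = 1 * (j + 1) := (one_mul _).symm
      _ ≤ e0 * (j + 1) := Nat.mul_le_mul_right _ he0
  refine ⟨globallyFRegular_of_good p c hδ h, le_antisymm hle ?_, ?_⟩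
  · refine le_iInf fun d => le_iInf fun hd => le_iInf fun f => le_iInf fun hf => le_iInf fun hfd =>
      (lt_fpt_mul p c h d f hd hf hfd).le
  · intro d f hd hf hfd
    exact hle.trans_lt (lt_fpt_mul p c h d f hd hf hfd)

end Pool.Agent.MP98601e
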