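import Pool.Agent.Work.MP_98601e_ag.Upper

/-!
Global F-regularity of the pair on the projective line, and the framework theorem.
-/

open MvPolynomial
open scoped ENNReal NNReal

set_option linter.unusedSectionVars false

namespace Pool.Agent.MP98601e

variable {k : Type*} [Field k]

attribute [local instance] MvPolynomial.gradedAlgebra in
/-- a height one prime containing a nonzero form is homogeneous -/
lemma isHom_of_mem (P : PrimeSpectrum (MvPolynomial (Fin 2) k)) (hP : P.asIdeal.height = 1)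
    {b : MvPolynomial (Fin 2) k} {n : ℕ} (hb : b.IsHomogeneous n) (hb0 : b ≠ 0)
    (hbP : b ∈ P.asIdeal) : IsHom P.asIdeal := by
  have hprime := P.isPrime.homogeneousCore (𝒜 := homogeneousSubmodule (Fin 2) k)
  set P0 := P.asIdeal.homogeneousCore (homogeneousSubmodule (Fin 2) k) with hP0
  have hle : P0.toIdeal ≤ P.asIdeal := Ideal.toIdeal_homogeneousCore_le _ _
  have hbP0 : b ∈ P0.toIdeal :=
    Ideal.mem_homogeneousCore_of_homogeneous_of_mem ⟨n, hb⟩ hbP
  have hne : P0.toIdeal ≠ ⊥ := by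
    intro h
    rw [h] at hbP0
    exact hb0 (by simpa using hbP0)
  have heq : P0.toIdeal = P.asIdeal := by
    by_contra hcon
    have : P.asIdeal.FiniteHeight := by simp [P.asIdeal.finiteHeight_iff, hP]
    have hlt := Ideal.height_strict_mono_of_isPrime_of_isPrime (lt_of_le_of_ne hle hcon)
    rw [hP, Order.lt_one_iff, Ideal.height_eq_zero_iff_eq_bot] at hlt
    exact hne hlt
  intro f hf i
  rw [← heq] at hf ⊢
  exact homogeneousComponent_mem_of_mem P0.isHomogeneous hf i

lemma comp_mul_left {c b : MvPolynomial (Fin 2) k} {n : ℕ} (hc : c.IsHomogeneous n) (i : ℕ) :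
    homogeneousComponent (n + i) (c * b) = c * homogeneousComponent i b := by
  conv_lhs => rw [← sum_homogeneousComponent b, Finset.mul_sum, map_sum]
  have h1 : ∀ j ∈ Finset.range (b.totalDegree + 1),
      homogeneousComponent (n + i) (c * homogeneousComponent j b) =
        if j = i then c * homogeneousComponent i b else 0 := by
    intro j _
    rw [homogeneousComponent_of_mem (hc.mul (homogeneousComponent_isHomogeneous j b))]
    by_cases h : j = i
    · subst h; simp
    · rw [if_neg (by omega), if_neg h]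
  rw [Finset.sum_congr rfl h1]
  simp only [Finset.sum_ite_eq', Finset.mem_range]
  split_ifs with h
  · rfl
  · rw [homogeneousComponent_eq_zero _ _ (by omega), mul_zero]

/-- a nonzero homogeneous ideal which is not everything contains a nonzero form of positive
degree -/
lemma exists_form_mem (P : Ideal (MvPolynomial (Fin 2) k)) (hP : IsHom P) (hbot : P ≠ ⊥)
    (_htop : P ≠ ⊤) : ∃ (n : ℕ) (f : MvPolynomial (Fin 2) k), f.IsHomogeneous n ∧ f ≠ 0 ∧
      f ∈ P := by
  obtain ⟨f, hf, hf0⟩ := (Submodule.ne_bot_iff _).mp hbot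
  have : ∃ i, homogeneousComponent i f ≠ 0 := by
    by_contra hcon
    push Not at hcon
    apply hf0
    rw [← sum_homogeneousComponent f]
    exact Finset.sum_eq_zero (fun i _ => hcon i)
  obtain ⟨i, hi⟩ := this
  exact ⟨i, _, homogeneousComponent_isHomogeneous i f, hi, hP f hf i⟩

/-- The key property of the coefficients. -/
def Good (k : Type*) [Field k] (p : ℕ) (c : Fin 3 → ℚ) : Prop :=
  ∀ (d : ℕ) (f : MvPolynomial (Fin 2) k), 0 < d → f ≠ 0 → f.IsHomogeneous d →
    ∃ (e N : ℕ) (A : Fin 3 → ℕ), 0 < e ∧ (∀ i, (A i : ℚ) = ((p : ℚ) ^ e - 1) * c i) ∧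
      ((p : ℚ) ^ e - 1) * (1 - (c 0 + c 1 + c 2) / 2) < N * d ∧
      ∃ m : Fin 2 →₀ ℕ, coeff m (X 0 ^ A 0 * X 1 ^ A 1 * (X 0 + X 1) ^ A 2 * f ^ N) ≠ 0 ∧
        m 0 < p ^ e ∧ m 1 < p ^ e

lemma exists_divisor_form (C : PrimeSpectrum (MvPolynomial (Fin 2) k) → ℕ)
    (hC : C.support.Finite) : ∃ (n : ℕ) (G : MvPolynomial (Fin 2) k), 0 < n ∧ G ≠ 0 ∧
      G.IsHomogeneous n ∧ ∀ P : PrimeSpectrum (MvPolynomial (Fin 2) k), P.asIdeal.height = 1 →
        IsHom P.asIdeal → (C P : ℕ∞) ≤ ordAt P G := by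
  classical
  have hex : ∀ P : PrimeSpectrum (MvPolynomial (Fin 2) k), ∃ (n : ℕ)
      (f : MvPolynomial (Fin 2) k), f.IsHomogeneous n ∧ f ≠ 0 ∧
      (P.asIdeal.height = 1 → IsHom P.asIdeal → f ∈ P.asIdeal) := by
    intro P
    by_cases h : P.asIdeal.height = 1 ∧ IsHom P.asIdeal
    · obtain ⟨n, f, h1, h2, h3⟩ := exists_form_mem P.asIdeal h.2
        (P.asIdeal.ne_bot_of_height_eq_one h.1) P.isPrime.ne_top
      exact ⟨n, f, h1, h2, fun _ _ => h3⟩
    · exact ⟨0, 1, isHomogeneous_one _ _, one_ne_zero, fun h1 h2 => absurd ⟨h1, h2⟩ h⟩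
  choose deg F hF1 hF2 hF3 using hex
  refine ⟨(∑ P ∈ hC.toFinset, deg P * C P) + 1, (∏ P ∈ hC.toFinset, F P ^ C P) * X 0,
    Nat.succ_pos _, ?_, ?_, ?_⟩
  · exact mul_ne_zero (Finset.prod_ne_zero_iff.mpr (fun P _ => pow_ne_zero _ (hF2 P)))
      (X_ne_zero _)
  · apply IsHomogeneous.mul _ (isHomogeneous_X _ _)
    apply IsHomogeneous.prod
    intro P _
    exact (hF1 P).pow _
  · intro P hP hPh
    by_cases hCP : C P = 0
    · rw [hCP]; simp
    · have hmem : P ∈ hC.toFinset := by simpa using hCP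
      have hdvd : F P ^ C P ∣ (∏ P ∈ hC.toFinset, F P ^ C P) * X 0 :=
        Dvd.dvd.mul_right (Finset.dvd_prod_of_mem (fun P => F P ^ C P) hmem) _
      refine le_trans ?_ (ordAt_mono P hdvd)
      rw [ordAt_pow P (hF2 P)]
      have h1 := one_le_ordAt P hP (hF3 P hP hPh)
      calc (C P : ℕ∞) = C P * 1 := by rw [mul_one]
        _ ≤ C P * ordAt P (F P) := mul_le_mul_right h1 _

variable (p : ℕ) [Fact p.Prime] [CharP k p] [PerfectRing k p]

theorem globallyFRegular_of_good (c : Fin 3 → ℚ) (hδ : c 0 + c 1 + c 2 < 2)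
    (h : Good k p c) : GloballyFRegular k p c := by
  have hp1 : 1 < p := (Fact.out : p.Prime).one_lt
  intro C hC
  obtain ⟨n, G, hn, hG0, hG, hCG⟩ := exists_divisor_form C hC
  obtain ⟨e, N, A, he, hA, hlt, m, hm, h0, h1⟩ := h n G hn hG0 hG
  have hq : 0 < p ^ e := pow_pos (by omega) e
  refine ⟨e, he, ?_⟩
  have hN : 1 ≤ N := by
    by_contra hcon
    have hN0 : N = 0 := by omega
    rw [hN0] at hlt
    have h2 : (1 : ℚ) < (p : ℚ) ^ e := one_lt_pow₀ (by exact_mod_cast hp1) (by omega)
    have h3 : 0 < ((p : ℚ) ^ e - 1) * (1 - (c 0 + c 1 + c 2) / 2) :=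
      mul_pos (by linarith) (by linarith)
    simp at hlt
    linarith
  set g : MvPolynomial (Fin 2) k := X 0 ^ A 0 * X 1 ^ A 1 * (X 0 + X 1) ^ A 2 * G ^ N with hg
  have hghom : g.IsHomogeneous (1 * A 0 + 1 * A 1 + 1 * A 2 + n * N) :=
    ((((isHomogeneous_X k 0).pow _).mul ((isHomogeneous_X k 1).pow _)).mul
      (((isHomogeneous_X k 0).add (isHomogeneous_X k 1)).pow _)).mul (hG.pow _)
  set D := 1 * A 0 + 1 * A 1 + 1 * A 2 + n * N with hD
  have hx : (X 0 : MvPolynomial (Fin 2) k) ≠ 0 := X_ne_zero _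
  have hy : (X 1 : MvPolynomial (Fin 2) k) ≠ 0 := X_ne_zero _
  have hxy := X01_ne_zero (k := k)
  have hg0 : g ≠ 0 := by
    rw [hg]
    exact mul_ne_zero (mul_ne_zero (mul_ne_zero (pow_ne_zero _ hx) (pow_ne_zero _ hy))
      (pow_ne_zero _ hxy)) (pow_ne_zero _ hG0)
  obtain ⟨φ, hφ, hφg, hφhom⟩ := exists_functional p e g D hghom m hm h0 h1
  let K := FractionRing (MvPolynomial (Fin 2) k)
  obtain ⟨Φ, hΦ, hΦs, hΦd⟩ := exists_extend (K := K) (p ^ e) hq φ hφ
  have hinj : Function.Injective (algebraMap (MvPolynomial (Fin 2) k) K) :=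
    IsFractionRing.injective _ _
  refine ⟨fun h => Φ (algebraMap _ K g * h), ?_, ?_, ?_, ?_⟩
  · intro u _ v _
    show Φ _ = Φ _ + Φ _
    rw [mul_add, map_add]
  · intro u _ v _
    show Φ _ = u * Φ _
    rw [← hΦ]
    congr 1
    ring
  · show Φ _ = 1
    rw [mul_one, hΦs, hφg, map_one]
  · rintro y hy_hom hy_irr h ⟨n', a, b, ha, hb, hb0, hab, hord⟩
    show Φ _ ∈ localRing y.asIdeal
    by_cases ha0 : a = 0
    · have hb' : algebraMap (MvPolynomial (Fin 2) k) K b ≠ 0 := by
        simpa using (map_ne_zero_iff _ hinj).mpr hb0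
      have hh0 : h = 0 := by
        rw [ha0, map_zero] at hab
        rcases mul_eq_zero.mp hab with h1 | h1
        · exact h1
        · exact absurd h1 hb'
      refine ⟨0, 0, 1, isHomogeneous_zero _ _ _, isHomogeneous_one _ _, ?_, ?_⟩
      · exact fun h1 => y.isPrime.ne_top ((Ideal.eq_top_iff_one _).mpr h1)
      · rw [hh0, mul_zero, map_zero, map_zero, zero_mul]
    obtain ⟨b', c', hb', hcb⟩ := exists_mul_eq_of_ordAt_le y.asIdeal b (a * g) hb0 (by
      intro P hP hPy
      by_cases hbP : b ∈ P.asIdeal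
      · have hPhom := isHom_of_mem P hP hb hb0 hbP
        rw [ordAt_mul P hg0]
        refine (hord P hP hPhom hPy).trans (add_le_add_right ?_ _)
        have hA' : ∀ i, (A i : ℝ) = ((p : ℝ) ^ e - 1) * c i := by
          intro i
          have := congrArg (fun q : ℚ => (q : ℝ)) (hA i)
          simpa using this
        have hceil : ⌈((p : ℝ) ^ e - 1) * bdry c (X 0) (X 1) P⌉₊ =
            A 0 * (ordAt P (X 0)).toNat + A 1 * (ordAt P (X 1)).toNat +
              A 2 * (ordAt P (X 0 + X 1 : MvPolynomial (Fin 2) k)).toNat := by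
          have key : ((p : ℝ) ^ e - 1) * bdry c (X 0) (X 1) P =
              ((A 0 * (ordAt P (X 0)).toNat + A 1 * (ordAt P (X 1)).toNat +
              A 2 * (ordAt P (X 0 + X 1 : MvPolynomial (Fin 2) k)).toNat : ℕ) : ℝ) := by
            rw [bdry]
            push_cast
            rw [hA' 0, hA' 1, hA' 2]
            ring
          rw [key, Nat.ceil_natCast]
        beta_reduce
        rw [hceil, hg, ordAt_mul P (pow_ne_zero _ hG0)]
        have e1 := ordAt_gen P hP hx hy hxy (one_ne_zero) A 0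
        rw [pow_zero, mul_one] at e1
        rw [e1, ordAt_pow P hG0]
        simp only [zero_mul, add_zero]
        push_cast
        gcongr
        refine (hCG P hP hPhom).trans ?_
        calc ordAt P G = 1 * ordAt P G := by rw [one_mul]
          _ ≤ N * ordAt P G := mul_le_mul_left (by exact_mod_cast hN) _
      · rw [ordAt_of_notMem P hbP]
        exact zero_le)
    -- homogeneous component of `b'` outside `y`
    have hex : ∃ i, homogeneousComponent i b' ∉ y.asIdeal := by
      by_contra hcon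
      push Not at hcon
      apply hb'
      rw [← sum_homogeneousComponent b']
      exact Ideal.sum_mem _ (fun i _ => hcon i)
    obtain ⟨i, hi⟩ := hex
    have hcomp := congrArg (homogeneousComponent ((n' + D) + i)) hcb
    rw [comp_mul_left (ha.mul hghom) i, mul_comm c' b,
      show n' + D + i = n' + (D + i) by ring, comp_mul_left hb (D + i)] at hcomp
    set b'' := homogeneousComponent i b' with hb''
    set c'' := homogeneousComponent (D + i) c' with hc''
    have hb''0 : b'' ≠ 0 := fun h => hi (by rw [h]; exact Ideal.zero_mem _)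
    have hb''hom : b''.IsHomogeneous i := homogeneousComponent_isHomogeneous i b'
    have hc''hom : c''.IsHomogeneous (D + i) := homogeneousComponent_isHomogeneous _ c'
    have hbK : algebraMap (MvPolynomial (Fin 2) k) K b ≠ 0 := by
      simpa using (map_ne_zero_iff _ hinj).mpr hb0
    have hb''K : algebraMap (MvPolynomial (Fin 2) k) K b'' ≠ 0 := by
      simpa using (map_ne_zero_iff _ hinj).mpr hb''0
    have hgh : algebraMap (MvPolynomial (Fin 2) k) K g * h =
        algebraMap (MvPolynomial (Fin 2) k) K c'' / algebraMap (MvPolynomial (Fin 2) k) K b'' := by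
      rw [eq_div_iff hb''K]
      apply mul_right_cancel₀ hbK
      have := congrArg (algebraMap (MvPolynomial (Fin 2) k) K) hcomp
      simp only [map_mul] at this
      rw [← hab] at this
      linear_combination this
    refine ⟨i, φ (c'' * b'' ^ (p ^ e - 1)), b'', ?_, hb''hom, hi, ?_⟩
    · apply hφhom
      have h2 := hc''hom.mul (hb''hom.pow (p ^ e - 1))
      have h3 : D + i + i * (p ^ e - 1) = p ^ e * i + D := by
        obtain ⟨t, ht⟩ : ∃ t, p ^ e = t + 1 := ⟨p ^ e - 1, by omega⟩
        rw [ht, Nat.add_sub_cancel]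
        ring
      rwa [h3] at h2
    · rw [hgh, hΦd _ _ hb''0, div_mul_cancel₀ _ hb''K]

end Pool.Agent.MP98601e
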