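import Pool.Agent.Work.MP_98601e_ag.Defs

/-!
Orders of vanishing along height one primes of a noetherian factorial domain.
-/

open Ideal

set_option linter.unusedSectionVars false

namespace Pool.Agent.MP98601e

variable {R : Type*} [CommRing R] [IsDomain R]

lemma algebraMap_mem_nonZeroDivisors (P : PrimeSpectrum R) {b : R} (hb : b ≠ 0) :
    algebraMap R (Localization.AtPrime P.asIdeal) b ∈
      nonZeroDivisors (Localization.AtPrime P.asIdeal) := by
  have : IsDomain (Localization.AtPrime P.asIdeal) :=
    IsLocalization.isDomain_localization P.asIdeal.primeCompl_le_nonZeroDivisors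
  rw [mem_nonZeroDivisors_iff_ne_zero]
  have hinj := IsLocalization.injective (Localization.AtPrime P.asIdeal)
    P.asIdeal.primeCompl_le_nonZeroDivisors
  simpa using (map_ne_zero_iff _ hinj).mpr hb

lemma ordAt_mul (P : PrimeSpectrum R) {a b : R} (hb : b ≠ 0) :
    ordAt P (a * b) = ordAt P a + ordAt P b := by
  unfold ordAt
  rw [map_mul, Ring.ord_mul _ (algebraMap_mem_nonZeroDivisors P hb)]

lemma ordAt_one (P : PrimeSpectrum R) : ordAt P (1 : R) = 0 := by
  unfold ordAt
  rw [map_one, Ring.ord_one]

lemma ordAt_pow (P : PrimeSpectrum R) {a : R} (ha : a ≠ 0) (n : ℕ) :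
    ordAt P (a ^ n) = n * ordAt P a := by
  unfold ordAt
  rw [map_pow, Ring.ord_pow (algebraMap_mem_nonZeroDivisors P ha), nsmul_eq_mul]

lemma ordAt_of_notMem (P : PrimeSpectrum R) {a : R} (ha : a ∉ P.asIdeal) : ordAt P a = 0 := by
  unfold ordAt
  apply Ring.ord_of_isUnit
  exact IsLocalization.map_units (Localization.AtPrime P.asIdeal) (⟨a, ha⟩ : P.asIdeal.primeCompl)

lemma ordAt_of_isUnit (P : PrimeSpectrum R) {a : R} (ha : IsUnit a) : ordAt P a = 0 := by
  unfold ordAt
  exact Ring.ord_of_isUnit (ha.map _)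

lemma ordAt_eq_one (P : PrimeSpectrum R) {π : R} (h : P.asIdeal = span {π}) : ordAt P π = 1 := by
  unfold ordAt
  rw [Ring.ord]
  have h1 : Ideal.span {algebraMap R (Localization.AtPrime P.asIdeal) π} =
      IsLocalRing.maximalIdeal (Localization.AtPrime P.asIdeal) := by
    rw [← Localization.AtPrime.map_eq_maximalIdeal (I := P.asIdeal)]
    have h0 := congrArg (Ideal.map (algebraMap R (Localization.AtPrime P.asIdeal))) h
    rw [h0, Ideal.map_span, Set.image_singleton]
  rw [h1, Module.length_eq_one_iff]
  rw [isSimpleModule_iff_isSimpleModule_of_algebraMap_surjective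
    (S := Localization.AtPrime P.asIdeal ⧸
      IsLocalRing.maximalIdeal (Localization.AtPrime P.asIdeal))
    Ideal.Quotient.mk_surjective]
  let := Ideal.Quotient.field (IsLocalRing.maximalIdeal (Localization.AtPrime P.asIdeal))
  exact instIsSimpleModule _

lemma ordAt_mono (P : PrimeSpectrum R) {a b : R} (h : a ∣ b) : ordAt P a ≤ ordAt P b := by
  unfold ordAt
  exact Ring.ord_le_ord_of_dvd (map_dvd _ h)

section UFD

variable [UniqueFactorizationMonoid R]

/-- a height one prime is generated by a prime element -/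
lemma exists_prime_gen (P : PrimeSpectrum R) (hP : P.asIdeal.height = 1) :
    ∃ π : R, Prime π ∧ P.asIdeal = span {π} := by
  have hne : P.asIdeal ≠ ⊥ := P.asIdeal.ne_bot_of_height_eq_one hP
  obtain ⟨x, hx, hxp⟩ := Ideal.IsPrime.exists_mem_prime_of_ne_bot P.isPrime hne
  exact ⟨x, hxp, P.asIdeal.eq_span_singleton_of_height_eq_one hP hx hxp⟩

lemma one_le_ordAt (P : PrimeSpectrum R) (hP : P.asIdeal.height = 1) {a : R}
    (ha : a ∈ P.asIdeal) : 1 ≤ ordAt P a := by
  obtain ⟨π, hπ, hspan⟩ := exists_prime_gen P hP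
  rw [hspan, mem_span_singleton] at ha
  rw [← ordAt_eq_one P hspan]
  exact ordAt_mono P ha

lemma ordAt_ne_top (P : PrimeSpectrum R) (hP : P.asIdeal.height = 1) {a : R} (ha : a ≠ 0) :
    ordAt P a ≠ ⊤ := by
  revert ha
  refine UniqueFactorizationMonoid.induction_on_prime a ?_ ?_ ?_
  · intro h; exact absurd rfl h
  · intro x hx _
    rw [ordAt_of_isUnit P hx]
    simp
  · intro x π hx hπ ih hne
    rw [mul_comm, ordAt_mul P hπ.ne_zero]
    have h2 : ordAt P π ≠ ⊤ := by
      by_cases h : π ∈ P.asIdeal
      · rw [ordAt_eq_one P (P.asIdeal.eq_span_singleton_of_height_eq_one hP h hπ)]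
        simp
      · rw [ordAt_of_notMem P h]; simp
    exact WithTop.add_ne_top.mpr ⟨ih hx, h2⟩

/-- a prime element is a unit or uniformizer -/
lemma ordAt_prime_eq (P : PrimeSpectrum R) (hP : P.asIdeal.height = 1) {π : R} (hπ : Prime π)
    (h : π ∈ P.asIdeal) : ordAt P π = 1 :=
  ordAt_eq_one P (P.asIdeal.eq_span_singleton_of_height_eq_one hP h hπ)

variable [IsNoetherianRing R]

/-- the prime divisor of a prime element -/
def primeDiv (π : R) (hπ : Prime π) : PrimeSpectrum R :=
  ⟨span {π}, (span_singleton_prime hπ.ne_zero).mpr hπ⟩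

lemma primeDiv_height (π : R) (hπ : Prime π) : (primeDiv π hπ).asIdeal.height = 1 :=
  Ideal.height_span_singleton_eq_one_of_mem_nonZeroDivisors
    (mem_nonZeroDivisors_of_ne_zero hπ.ne_zero) hπ.not_isUnit

/-- Local divisibility: if the orders of `b` are at most those of `c` along all height one primes
inside the prime `y`, then `b ∣ c` up to an element outside `y`. -/
lemma exists_mul_eq_of_ordAt_le (y : Ideal R) [y.IsPrime] (b c : R) (hb : b ≠ 0)
    (h : ∀ P : PrimeSpectrum R, P.asIdeal.height = 1 → P.asIdeal ≤ y → ordAt P b ≤ ordAt P c) :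
    ∃ b' c' : R, b' ∉ y ∧ c * b' = c' * b := by
  revert c
  revert hb
  refine UniqueFactorizationMonoid.induction_on_prime b ?_ ?_ ?_
  · intro h; exact absurd rfl h
  · intro u hu _ c _
    obtain ⟨v, hv⟩ := hu.exists_right_inv
    refine ⟨1, c * v, fun h1 => ‹y.IsPrime›.ne_top ((Ideal.eq_top_iff_one y).mpr h1), ?_⟩
    rw [mul_one, mul_assoc, mul_comm v u, hv, mul_one]
  · intro b1 π hb1 hπ ih hne c h
    by_cases hy : π ∈ y
    · have hle : (primeDiv π hπ).asIdeal ≤ y := by
        show span {π} ≤ y
        rw [span_singleton_le_iff_mem]; exact hy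
      have h1 := h (primeDiv π hπ) (primeDiv_height π hπ) hle
      have hc : c ∈ (primeDiv π hπ).asIdeal := by
        by_contra hc
        rw [ordAt_of_notMem _ hc] at h1
        have h2 : 1 ≤ ordAt (primeDiv π hπ) (π * b1) :=
          one_le_ordAt _ (primeDiv_height π hπ)
            (Ideal.mul_mem_right _ _ (mem_span_singleton_self π))
        exact absurd (h2.trans h1) (by simp)
      obtain ⟨c1, rfl⟩ := mem_span_singleton.mp hc
      obtain ⟨b', c', hb', he⟩ := ih hb1 c1 (by
        intro P hP hPy
        have h3 := h P hP hPy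
        by_cases hc1 : c1 = 0
        · subst hc1
          exact ordAt_mono P (dvd_zero b1)
        rw [ordAt_mul P hb1, ordAt_mul P hc1] at h3
        exact (WithTop.add_le_add_iff_left (ordAt_ne_top P hP hπ.ne_zero)).mp h3)
      refine ⟨b', c', hb', ?_⟩
      rw [mul_assoc, he]; ring
    · obtain ⟨b', c', hb', he⟩ := ih hb1 c (by
        intro P hP hPy
        have h3 := h P hP hPy
        rw [ordAt_mul P hb1, ordAt_of_notMem P (fun hπP => hy (hPy hπP)), zero_add] at h3
        exact h3)
      refine ⟨π * b', c', fun hm => ?_, ?_⟩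
      · rcases ‹y.IsPrime›.mem_or_mem hm with h4 | h4
        · exact hy h4
        · exact hb' h4
      · calc c * (π * b') = π * (c * b') := by ring
          _ = π * (c' * b1) := by rw [he]
          _ = c' * (π * b1) := by ring

/-- Global divisibility from orders along height one primes. -/
lemma dvd_of_ordAt_le (b c : R) (hb : b ≠ 0)
    (h : ∀ P : PrimeSpectrum R, P.asIdeal.height = 1 → ordAt P b ≤ ordAt P c) : b ∣ c := by
  revert c
  revert hb
  refine UniqueFactorizationMonoid.induction_on_prime b ?_ ?_ ?_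
  · intro h; exact absurd rfl h
  · intro u hu _ c _
    exact hu.dvd
  · intro b1 π hb1 hπ ih hne c h
    have h1 := h (primeDiv π hπ) (primeDiv_height π hπ)
    have hc : c ∈ (primeDiv π hπ).asIdeal := by
      by_contra hc
      rw [ordAt_of_notMem _ hc] at h1
      have h2 : 1 ≤ ordAt (primeDiv π hπ) (π * b1) :=
        one_le_ordAt _ (primeDiv_height π hπ)
          (Ideal.mul_mem_right _ _ (mem_span_singleton_self π))
      exact absurd (h2.trans h1) (by simp)
    obtain ⟨c1, rfl⟩ := mem_span_singleton.mp hc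
    apply mul_dvd_mul_left
    apply ih hb1 c1
    intro P hP
    have h3 := h P hP
    by_cases hc1 : c1 = 0
    · subst hc1
      exact ordAt_mono P (dvd_zero b1)
    rw [ordAt_mul P hb1, ordAt_mul P hc1] at h3
    exact (WithTop.add_le_add_iff_left (ordAt_ne_top P hP hπ.ne_zero)).mp h3

/-- Realising an effective divisor supported on the zero locus of `h ≠ 0` by an element. -/
lemma exists_ordAt_eq (h : R) (hh : h ≠ 0) (E : PrimeSpectrum R → ℕ)
    (hE : ∀ P : PrimeSpectrum R, P.asIdeal.height = 1 → h ∉ P.asIdeal → E P = 0) :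
    ∃ g : R, g ≠ 0 ∧ ∀ P : PrimeSpectrum R, P.asIdeal.height = 1 → ordAt P g = E P := by
  revert E
  revert hh
  refine UniqueFactorizationMonoid.induction_on_prime h ?_ ?_ ?_
  · intro h; exact absurd rfl h
  · intro u hu _ E hE
    refine ⟨1, one_ne_zero, fun P hP => ?_⟩
    rw [ordAt_one, hE P hP (fun hm => P.isPrime.ne_top (Ideal.eq_top_of_isUnit_mem _ hm hu))]
    simp
  · intro b π hb hπ ih hne E hE
    classical
    by_cases hbπ : b ∈ (primeDiv π hπ).asIdeal
    · -- then the support of `b` and `π * b` agree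
      apply ih hb E
      intro P hP hbP
      apply hE P hP
      intro hm
      rcases P.isPrime.mem_or_mem hm with h1 | h1
      · apply hbP
        rw [P.asIdeal.eq_span_singleton_of_height_eq_one hP h1 hπ]
        exact hbπ
      · exact hbP h1
    · let E' : PrimeSpectrum R → ℕ := fun P => if P = primeDiv π hπ then 0 else E P
      obtain ⟨g, hg, hgE⟩ := ih hb E' (by
        intro P hP hbP
        by_cases hPP : P = primeDiv π hπ
        · simp [E', hPP]
        · simp only [E', if_neg hPP]
          apply hE P hP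
          intro hm
          rcases P.isPrime.mem_or_mem hm with h1 | h1
          · apply hPP
            ext1
            exact P.asIdeal.eq_span_singleton_of_height_eq_one hP h1 hπ
          · exact hbP h1)
      refine ⟨g * π ^ E (primeDiv π hπ), mul_ne_zero hg (pow_ne_zero _ hπ.ne_zero), ?_⟩
      intro P hP
      rw [ordAt_mul P (pow_ne_zero _ hπ.ne_zero), ordAt_pow P hπ.ne_zero, hgE P hP]
      by_cases hPP : P = primeDiv π hπ
      · subst hPP
        rw [ordAt_eq_one (primeDiv π hπ) rfl]
        simp [E']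
      · have : π ∉ P.asIdeal := fun h1 => hPP (by
          ext1
          exact P.asIdeal.eq_span_singleton_of_height_eq_one hP h1 hπ)
        rw [ordAt_of_notMem P this]
        simp [E', hPP]

end UFD

end Pool.Agent.MP98601e
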