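import Pool.Agent.Work.MP_98601e_ag.Ord

/-!
Splittings versus `p^{-e}`-linear functionals on a noetherian factorial domain.
-/

open Ideal

set_option linter.unusedSectionVars false

namespace Pool.Agent.MP98601e

variable {R : Type*} [CommRing R] [IsDomain R]

/-- A splitting of `R → F^e_* R(E)` gives a functional sending `g` to `1` if `div g ≤ E`. -/
theorem exists_of_splitsAt {p e : ℕ} {E : PrimeSpectrum R → ℕ} (h : SplitsAt (R := R) p e E)
    (g : R) (hg : g ≠ 0)
    (hgE : ∀ P : PrimeSpectrum R, P.asIdeal.height = 1 → ordAt P g ≤ E P) :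
    ∃ ψ : R →+ R, (∀ r h, ψ (r ^ p ^ e * h) = r * ψ h) ∧ ψ g = 1 := by
  obtain ⟨φ, hφ, hE, h1⟩ := h
  have hinj : Function.Injective (algebraMap R (FractionRing R)) := IsFractionRing.injective R _
  have hg' : algebraMap R (FractionRing R) g ≠ 0 := by
    simpa using (map_ne_zero_iff _ hinj).mpr hg
  have hmem : ∀ r : R, ∃ s : R, φ (algebraMap R (FractionRing R) r /
      algebraMap R (FractionRing R) g) = algebraMap R (FractionRing R) s := by
    intro r
    apply hE
    refine ⟨r, g, hg, ?_, ?_⟩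
    · rw [div_mul_cancel₀ _ hg']
    · intro P hP
      exact (hgE P hP).trans le_add_self
  choose ψ hψ using hmem
  refine ⟨AddMonoidHom.mk' ψ ?_, ?_, ?_⟩
  · intro a b
    apply hinj
    rw [map_add, ← hψ, ← hψ, ← hψ, ← map_add, map_add, add_div]
  · intro r h
    show ψ _ = r * ψ h
    apply hinj
    rw [map_mul, ← hψ, ← hψ, ← hφ, map_mul, map_pow, mul_div_assoc]
  · show ψ g = 1
    apply hinj
    rw [← hψ, div_self hg', h1, map_one]

section UFD

variable [UniqueFactorizationMonoid R] [IsNoetherianRing R]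

/-- A functional on the fraction field, preserving `R` and sending `g` to `1`, gives a splitting of
`R → F^e_* R(E)` if `E ≤ div g`. -/
theorem splitsAt_of {p e : ℕ} (E : PrimeSpectrum R → ℕ) (g : R)
    (hgE : ∀ P : PrimeSpectrum R, P.asIdeal.height = 1 → (E P : ℕ∞) ≤ ordAt P g)
    (Φ : FractionRing R →+ FractionRing R)
    (hΦ : ∀ (r : R) (h : FractionRing R),
      Φ (algebraMap R (FractionRing R) r ^ p ^ e * h) = algebraMap R (FractionRing R) r * Φ h)
    (hR : ∀ r : R, ∃ s : R, Φ (algebraMap R (FractionRing R) r) = algebraMap R (FractionRing R) s)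
    (h1 : Φ (algebraMap R (FractionRing R) g) = 1) : SplitsAt (R := R) p e E := by
  have hinj : Function.Injective (algebraMap R (FractionRing R)) := IsFractionRing.injective R _
  have hg : g ≠ 0 := by
    rintro rfl
    rw [map_zero, map_zero] at h1
    exact zero_ne_one h1
  refine ⟨Φ.comp (AddMonoidHom.mulLeft (algebraMap R (FractionRing R) g)), ?_, ?_, ?_⟩
  · intro r h
    simp only [AddMonoidHom.comp_apply, AddMonoidHom.coe_mulLeft]
    rw [← hΦ]
    congr 1
    ring
  · rintro h ⟨a, b, hb, hab, hP⟩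
    simp only [AddMonoidHom.comp_apply, AddMonoidHom.coe_mulLeft]
    have hdvd : b ∣ a * g := by
      apply dvd_of_ordAt_le b (a * g) hb
      intro P hP1
      rw [ordAt_mul P hg]
      exact (hP P hP1).trans (add_le_add_right (hgE P hP1) _)
    obtain ⟨s, hs⟩ := hdvd
    have hb' : algebraMap R (FractionRing R) b ≠ 0 := by
      simpa using (map_ne_zero_iff _ hinj).mpr hb
    have : algebraMap R (FractionRing R) g * h = algebraMap R (FractionRing R) s := by
      apply mul_right_cancel₀ hb'
      rw [mul_assoc, hab, ← map_mul, ← map_mul, mul_comm g a, hs, mul_comm]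
    rw [this]
    exact hR s
  · simpa using h1

end UFD

/-- Iterating a functional. -/
theorem iterate_functional {q : ℕ} (ψ : R →+ R) (hψ : ∀ r h, ψ (r ^ q * h) = r * ψ h) (g : R)
    (h1 : ψ g = 1) (j : ℕ) : ∃ ψj : R →+ R, (∀ r h, ψj (r ^ q ^ j * h) = r * ψj h) ∧
      ψj (g ^ (∑ i ∈ Finset.range j, q ^ i)) = 1 := by
  induction j with
  | zero => exact ⟨AddMonoidHom.id R, by simp, by simp⟩
  | succ j ih =>
    obtain ⟨ψj, hj, hj1⟩ := ih
    refine ⟨ψj.comp ψ, ?_, ?_⟩
    · intro r h
      rw [AddMonoidHom.comp_apply, AddMonoidHom.comp_apply, pow_succ, pow_mul, hψ, hj]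
    · rw [AddMonoidHom.comp_apply]
      have e1 : ∑ i ∈ Finset.range (j + 1), q ^ i = (∑ i ∈ Finset.range j, q ^ i) * q + 1 := by
        rw [Finset.sum_range_succ', Finset.sum_mul, pow_zero]
        congr 1
      rw [e1, pow_succ, pow_mul, hψ, h1, mul_one, hj1]

/-- The contradiction: an iterated functional cannot send an element of the Frobenius power of a
proper ideal to `1`. -/
theorem no_functional {q : ℕ} (M : Ideal R) (hM : M ≠ ⊤) (ψ : R →+ R)
    (hψ : ∀ r h, ψ (r ^ q * h) = r * ψ h) (g : R) (h1 : ψ g = 1) (j : ℕ) (x y : R)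
    (hx : x ∈ M) (hy : y ∈ M) (a b : R)
    (hab : g ^ (∑ i ∈ Finset.range j, q ^ i) = x ^ q ^ j * a + y ^ q ^ j * b) : False := by
  obtain ⟨ψj, hj, hj1⟩ := iterate_functional ψ hψ g h1 j
  rw [hab, map_add, hj, hj] at hj1
  apply hM
  rw [Ideal.eq_top_iff_one, ← hj1]
  exact M.add_mem (M.mul_mem_right _ hx) (M.mul_mem_right _ hy)

end Pool.Agent.MP98601e
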