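import Mathlib

/-!
The `p^{-e}`-linear trace functionals on `k[x,y]` and their extension to the fraction field.
-/

open MvPolynomial

namespace Pool.Agent.MP98601e

section Trace

variable {k : Type*} [Field k] (p : ℕ) [Fact p.Prime] [CharP k p] [PerfectRing k p]

/-- inverse of the `e`-th Frobenius of the perfect field `k`. -/
noncomputable def rootE (e : ℕ) : k →+ k :=
  ((iterateFrobeniusEquiv k p e).symm : k ≃+* k).toAddEquiv.toAddMonoidHom

lemma rootE_mul (e : ℕ) (a b : k) : rootE p e (a * b) = rootE p e a * rootE p e b := by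
  simp [rootE]

lemma rootE_pow (e : ℕ) (a : k) : rootE p e (a ^ p ^ e) = a := by
  show (iterateFrobeniusEquiv k p e).symm (a ^ p ^ e) = a
  rw [RingEquiv.symm_apply_eq]
  rfl

/-- the shift monomial map -/
noncomputable def gmon (q : ℕ) (s m : Fin 2 →₀ ℕ) : MvPolynomial (Fin 2) k :=
  if ∀ i, m i % q = s i then monomial (m.mapRange (· / q) (Nat.zero_div q)) 1 else 0

/-- The `p^{-e}`-linear functional picking out the exponents `≡ s mod q`. -/
noncomputable def tr (e : ℕ) (s : Fin 2 →₀ ℕ) :
    MvPolynomial (Fin 2) k →+ MvPolynomial (Fin 2) k :=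
  (Finsupp.liftAddHom (fun m : Fin 2 →₀ ℕ =>
    (AddMonoidHom.mulRight (gmon (k := k) (p ^ e) s m)).comp
      ((MvPolynomial.C : k →+* MvPolynomial (Fin 2) k).toAddMonoidHom.comp
        (rootE (k := k) p e)))).comp
    (AddMonoidAlgebra.coeffAddEquiv (R := k) (M := Fin 2 →₀ ℕ)).toAddMonoidHom

lemma tr_monomial (e : ℕ) (s m : Fin 2 →₀ ℕ) (c : k) :
    tr p e s (monomial m c) = C (rootE p e c) * gmon (p ^ e) s m := by
  have h : (AddMonoidAlgebra.coeffAddEquiv (R := k) (M := Fin 2 →₀ ℕ))
      (monomial m c : MvPolynomial (Fin 2) k) = Finsupp.single m c := rfl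
  simp only [tr, AddMonoidHom.comp_apply]
  erw [h]
  rw [Finsupp.liftAddHom_apply_single]
  rfl

lemma gmon_shift {q : ℕ} (hq : 0 < q) (s a m : Fin 2 →₀ ℕ) :
    gmon (k := k) q s (q • a + m) = monomial a 1 * gmon q s m := by
  unfold gmon
  have h1 : ∀ i, (q • a + m) i % q = m i % q := by
    intro i
    simp
  have h2 : (q • a + m).mapRange (· / q) (Nat.zero_div q) =
      a + m.mapRange (· / q) (Nat.zero_div q) := by
    ext i
    simp only [Finsupp.mapRange_apply, Finsupp.add_apply, Finsupp.smul_apply, smul_eq_mul]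
    rw [Nat.mul_add_div hq]
  by_cases h : ∀ i, m i % q = s i
  · rw [if_pos h, if_pos (fun i => (h1 i).trans (h i)), h2, monomial_mul, one_mul]
  · rw [if_neg h, if_neg (fun H => h (fun i => (h1 i).symm.trans (H i))), mul_zero]

lemma monomial_pow_char (e : ℕ) (a : Fin 2 →₀ ℕ) (c : k) :
    (monomial a c) ^ p ^ e = monomial ((p ^ e) • a) (c ^ p ^ e) := by
  rw [monomial_pow]

lemma tr_semilin (e : ℕ) (s : Fin 2 →₀ ℕ) (r h : MvPolynomial (Fin 2) k) :
    tr p e s (r ^ p ^ e * h) = r * tr p e s h := by
  have hp : 0 < p ^ e := pow_pos (Fact.out : p.Prime).pos e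
  induction r using MvPolynomial.induction_on' with
  | monomial a c =>
    induction h using MvPolynomial.induction_on' with
    | monomial m d =>
      rw [monomial_pow_char, monomial_mul, tr_monomial, tr_monomial, gmon_shift hp,
        rootE_mul, rootE_pow]
      have : (monomial a c : MvPolynomial (Fin 2) k) = C c * monomial a 1 := by
        rw [C_mul_monomial, mul_one]
      rw [this, C_mul]
      ring
    | add h1 h2 ih1 ih2 => rw [mul_add, map_add, ih1, ih2, map_add, mul_add]
  | add r1 r2 ih1 ih2 =>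
    rw [add_pow_char_pow, add_mul, map_add, ih1, ih2, add_mul]

/-- the functional sends a homogeneous form of degree `q n + |s|` to a form of degree `n` -/
lemma tr_homogeneous (e : ℕ) (s : Fin 2 →₀ ℕ) (n : ℕ) (h : MvPolynomial (Fin 2) k)
    (hh : h.IsHomogeneous (p ^ e * n + (s 0 + s 1))) : (tr p e s h).IsHomogeneous n := by
  have hp : 0 < p ^ e := pow_pos (Fact.out : p.Prime).pos e
  have key : ∀ m : Fin 2 →₀ ℕ, m 0 + m 1 = p ^ e * n + (s 0 + s 1) → ∀ c : k,
      (tr p e s (monomial m c)).IsHomogeneous n := by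
    intro m hm c
    rw [tr_monomial]
    unfold gmon
    split_ifs with H
    · rw [C_mul_monomial]
      apply isHomogeneous_monomial
      have e0 := Nat.div_add_mod (m 0) (p ^ e)
      have e1 := Nat.div_add_mod (m 1) (p ^ e)
      rw [H 0] at e0
      rw [H 1] at e1
      rw [Finsupp.degree_eq_sum]
      simp only [Fin.sum_univ_two, Finsupp.mapRange_apply]
      have : p ^ e * (m 0 / p ^ e + m 1 / p ^ e) = p ^ e * n := by
        rw [mul_add]; omega
      exact Nat.eq_of_mul_eq_mul_left hp this
    · rw [mul_zero]; exact isHomogeneous_zero _ _ _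
  have hs := h.as_sum
  rw [hs, map_sum]
  apply IsHomogeneous.sum
  intro m hm
  apply key
  have := hh (mem_support_iff.mp hm)
  rw [← this]
  simp [Finsupp.weight_apply, Finsupp.sum_fintype]

/-- If `g` is a form with a monomial whose exponents are `< q`, a suitable functional sends
`g` to `1`. -/
lemma exists_functional (e : ℕ) (g : MvPolynomial (Fin 2) k) (n : ℕ) (hg : g.IsHomogeneous n)
    (m : Fin 2 →₀ ℕ) (hm : coeff m g ≠ 0) (h0 : m 0 < p ^ e) (h1 : m 1 < p ^ e) :
    ∃ φ : MvPolynomial (Fin 2) k →+ MvPolynomial (Fin 2) k,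
      (∀ r h, φ (r ^ p ^ e * h) = r * φ h) ∧ φ g = 1 ∧
      (∀ (j : ℕ) (h : MvPolynomial (Fin 2) k), h.IsHomogeneous (p ^ e * j + n) →
        (φ h).IsHomogeneous j) := by
  have hp : 0 < p ^ e := pow_pos (Fact.out : p.Prime).pos e
  have hn : m 0 + m 1 = n := by
    have := hg hm
    rw [← this]
    simp [Finsupp.weight_apply, Finsupp.sum_fintype]
  have hroot : rootE p e (coeff m g) ≠ 0 := by
    simpa [rootE] using hm
  refine ⟨(AddMonoidHom.mulLeft (C (rootE p e (coeff m g))⁻¹)).comp (tr p e m), ?_, ?_, ?_⟩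
  · intro r h
    simp only [AddMonoidHom.comp_apply, AddMonoidHom.coe_mulLeft, tr_semilin]
    ring
  · simp only [AddMonoidHom.comp_apply, AddMonoidHom.coe_mulLeft]
    have hsum : tr p e m g = C (rootE p e (coeff m g)) := by
      conv_lhs => rw [g.as_sum, map_sum]
      rw [Finset.sum_eq_single m]
      · rw [tr_monomial]
        have : gmon (k := k) (p ^ e) m m = 1 := by
          unfold gmon
          rw [if_pos]
          · have : m.mapRange (· / p ^ e) (Nat.zero_div (p ^ e)) = 0 := by
              ext i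
              fin_cases i
              · simp [Nat.div_eq_of_lt h0]
              · simp [Nat.div_eq_of_lt h1]
            rw [this]; rfl
          · intro i
            fin_cases i
            · simpa using Nat.mod_eq_of_lt h0
            · simpa using Nat.mod_eq_of_lt h1
        rw [this, mul_one]
      · intro b hb hbm
        rw [tr_monomial]
        have hbdeg : b 0 + b 1 = n := by
          have := hg (mem_support_iff.mp hb)
          rw [← this]
          simp [Finsupp.weight_apply, Finsupp.sum_fintype]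
        unfold gmon
        rw [if_neg, mul_zero]
        intro H
        apply hbm
        have e0 := Nat.mod_le (b 0) (p ^ e)
        have e1 := Nat.mod_le (b 1) (p ^ e)
        rw [H 0] at e0
        rw [H 1] at e1
        ext i
        fin_cases i
        · simp; omega
        · simp; omega
      · intro h
        exact absurd (mem_support_iff.mpr hm) h
    rw [hsum, ← C_mul, inv_mul_cancel₀ hroot, C_1]
  · intro j h hh
    simp only [AddMonoidHom.comp_apply, AddMonoidHom.coe_mulLeft]
    have := (isHomogeneous_C (Fin 2) (rootE p e (coeff m g))⁻¹).mul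
      (tr_homogeneous p e m j h (by rw [hn]; exact hh))
    simpa using this

end Trace

section Extend

variable {S : Type*} [CommRing S] [IsDomain S] {K : Type*} [Field K] [Algebra S K]
  [IsFractionRing S K]

/-- Extension of a `q^{-1}`-linear map from `S` to its fraction field. -/
theorem exists_extend (q : ℕ) (hq : 0 < q) (φ : S →+ S) (hφ : ∀ r h, φ (r ^ q * h) = r * φ h) :
    ∃ Φ : K →+ K, (∀ g h, Φ (g ^ q * h) = g * Φ h) ∧
      (∀ s, Φ (algebraMap S K s) = algebraMap S K (φ s)) ∧
      (∀ a b : S, b ≠ 0 → Φ (algebraMap S K a / algebraMap S K b) =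
        algebraMap S K (φ (a * b ^ (q - 1))) / algebraMap S K b) := by
  classical
  have hinj : Function.Injective (algebraMap S K) := IsFractionRing.injective S K
  have hne : ∀ b : S, b ≠ 0 → algebraMap S K b ≠ 0 := fun b hb => by
    simpa using (map_ne_zero_iff _ hinj).mpr hb
  have hfrac : ∀ h : K, ∃ a b : S, b ≠ 0 ∧ h = algebraMap S K a / algebraMap S K b := by
    intro h
    obtain ⟨a, b, hb, rfl⟩ := IsFractionRing.div_surjective (A := S) h
    exact ⟨a, b, nonZeroDivisors.ne_zero hb, rfl⟩
  choose num den hden hnd using hfrac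
  let F : K → K := fun h => algebraMap S K (φ (num h * den h ^ (q - 1))) / algebraMap S K (den h)
  have hF : ∀ a b : S, b ≠ 0 → F (algebraMap S K a / algebraMap S K b) =
        algebraMap S K (φ (a * b ^ (q - 1))) / algebraMap S K b := by
    intro a b hb
    set h := algebraMap S K a / algebraMap S K b with hh
    have e1 : num h * b = a * den h := by
      apply hinj
      rw [map_mul, map_mul]
      have := hnd h
      have e2 := hh.symm.trans this
      rw [div_eq_div_iff (hne _ hb) (hne _ (hden h))] at e2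
      rw [e2]
    show algebraMap S K (φ (num h * den h ^ (q - 1))) / algebraMap S K (den h) = _
    rw [div_eq_div_iff (hne _ (hden h)) (hne _ hb), ← map_mul, ← map_mul]
    congr 1
    rw [mul_comm, ← hφ, mul_comm (φ (a * b ^ (q - 1))), ← hφ]
    congr 1
    obtain ⟨t, rfl⟩ : ∃ t, q = t + 1 := ⟨q - 1, by omega⟩
    simp only [Nat.add_sub_cancel]
    calc b ^ (t + 1) * (num h * den h ^ t) = b ^ t * den h ^ t * (num h * b) := by ring
      _ = b ^ t * den h ^ t * (a * den h) := by rw [e1]
      _ = den h ^ (t + 1) * (a * b ^ t) := by ring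
  have hadd : ∀ g h, F (g + h) = F g + F h := by
    intro g h
    obtain ⟨a, b, hb, rfl⟩ : ∃ a b : S, b ≠ 0 ∧ g = algebraMap S K a / algebraMap S K b :=
      ⟨_, _, hden g, hnd g⟩
    obtain ⟨c, d, hd, rfl⟩ : ∃ a b : S, b ≠ 0 ∧ h = algebraMap S K a / algebraMap S K b :=
      ⟨_, _, hden h, hnd h⟩
    have e1 : algebraMap S K a / algebraMap S K b + algebraMap S K c / algebraMap S K d =
        algebraMap S K (a * d + b * c) / algebraMap S K (b * d) := by
      rw [div_add_div _ _ (hne _ hb) (hne _ hd)]
      simp [map_add, map_mul]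
    rw [e1, hF _ _ (mul_ne_zero hb hd), hF _ _ hb, hF _ _ hd,
      div_add_div _ _ (hne _ hb) (hne _ hd)]
    have e4 : φ ((a * d + b * c) * (b * d) ^ (q - 1)) =
        φ (a * b ^ (q - 1)) * d + b * φ (c * d ^ (q - 1)) := by
      rw [mul_comm (φ (a * b ^ (q - 1))) d, ← hφ, ← hφ, ← map_add]
      congr 1
      obtain ⟨t, rfl⟩ : ∃ t, q = t + 1 := ⟨q - 1, by omega⟩
      simp only [Nat.add_sub_cancel]
      ring
    rw [e4]
    simp only [map_mul, map_add]
  refine ⟨AddMonoidHom.mk' F hadd, ?_, ?_, ?_⟩
  · intro g h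
    obtain ⟨a, b, hb, rfl⟩ : ∃ a b : S, b ≠ 0 ∧ g = algebraMap S K a / algebraMap S K b :=
      ⟨_, _, hden g, hnd g⟩
    obtain ⟨c, d, hd, rfl⟩ : ∃ a b : S, b ≠ 0 ∧ h = algebraMap S K a / algebraMap S K b :=
      ⟨_, _, hden h, hnd h⟩
    have e1 : (algebraMap S K a / algebraMap S K b) ^ q * (algebraMap S K c / algebraMap S K d)
        = algebraMap S K (a ^ q * c) / algebraMap S K (b ^ q * d) := by
      rw [div_pow, div_mul_div_comm]
      simp [map_mul, map_pow]
    have hbd : b ^ q * d ≠ 0 := mul_ne_zero (pow_ne_zero _ hb) hd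
    show F _ = _ * F _
    rw [e1, hF _ _ hbd, hF _ _ hd, div_mul_div_comm, ← map_mul, ← map_mul,
      div_eq_div_iff (hne _ hbd) (hne _ (mul_ne_zero hb hd)), ← map_mul, ← map_mul]
    congr 1
    rw [mul_comm (φ _) (b * d), ← hφ]
    have e3 : a * φ (c * d ^ (q - 1)) * (b ^ q * d) =
        (a * b ^ q * d) * φ (c * d ^ (q - 1)) := by ring
    rw [e3, ← hφ]
    congr 1
    obtain ⟨t, rfl⟩ : ∃ t, q = t + 1 := ⟨q - 1, by omega⟩
    simp only [Nat.add_sub_cancel]
    ring
  · intro s
    have := hF s 1 one_ne_zero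
    simpa using this
  · intro a b hb
    exact hF a b hb

end Extend

end Pool.Agent.MP98601e
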