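import Pool.Agent.Work.MP_98601e_ag.Frame

/-!
Upper bounds for F-pure thresholds on the cone.
-/

open MvPolynomial
open scoped ENNReal NNReal

set_option linter.unusedSectionVars false

namespace Pool.Agent.MP98601e

variable {k : Type*} [Field k] (p : ℕ) [Fact p.Prime] [CharP k p] [PerfectRing k p]

theorem le_of_sharplyFSplit (c : Fin 3 → ℚ) (e0 : ℕ) (he0 : 0 < e0)
    (a : Fin 3 → ℕ) (ha : ∀ i, (a i : ℚ) = ((p : ℚ) ^ e0 - 1) * c i) (j : ℕ) (A : Fin 3 → ℕ)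
    (hA : ∀ i, (A i : ℚ) = ((p : ℚ) ^ (e0 * j) - 1) * c i) (f : MvPolynomial (Fin 2) k)
    (hf : f ≠ 0)
    (hmem : ∃ u v : MvPolynomial (Fin 2) k, X 0 ^ A 0 * X 1 ^ A 1 * (X 0 + X 1) ^ A 2 * f =
      X 0 ^ p ^ (e0 * j) * u + X 1 ^ p ^ (e0 * j) * v)
    (t : ℝ≥0) (ht : SharplyFSplit p (fun P : PrimeSpectrum (ConeRing k) =>
      bdry c (algebraMap (MvPolynomial (Fin 2) k) (ConeRing k) (X 0))
        (algebraMap (MvPolynomial (Fin 2) k) (ConeRing k) (X 1)) P +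
        t * (ordAt P (algebraMap (MvPolynomial (Fin 2) k) (ConeRing k) f)).toNat)) :
    (t : ℝ) ≤ 1 / (p : ℝ) ^ (e0 * j) := by
  by_contra hlt
  push Not at hlt
  have hp1 : 1 < p := (Fact.out : p.Prime).one_lt
  have hp0 : 0 < p := by omega
  have hpR : (1 : ℝ) < p := by exact_mod_cast hp1
  obtain ⟨e', he', hs⟩ := ht
  set ι := algebraMap (MvPolynomial (Fin 2) k) (ConeRing k) with hι
  set E : PrimeSpectrum (ConeRing k) → ℕ := fun P => ⌈((p : ℝ) ^ e' - 1) *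
    (bdry c (ι (X 0)) (ι (X 1)) P + t * (ordAt P (ι f)).toNat)⌉₊ with hEdef
  have hx := toCone_ne_zero (k := k) (X_ne_zero (R := k) (0 : Fin 2))
  have hy := toCone_ne_zero (k := k) (X_ne_zero (R := k) (1 : Fin 2))
  have hxy := toCone_ne_zero (k := k) X01_ne_zero
  have hf' := toCone_ne_zero hf
  rw [← hι] at hx hy hxy hf'
  -- the element with divisor `E`
  obtain ⟨g, hg, hgE⟩ := exists_ordAt_eq (ι (X 0) * ι (X 1) * ι (X 0 + X 1) * ι f)
    (mul_ne_zero (mul_ne_zero (mul_ne_zero hx hy) hxy) hf') E (by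
      intro P hP hn
      have h1 : ι (X 0) ∉ P.asIdeal := fun h => hn (P.asIdeal.mul_mem_right _
        (P.asIdeal.mul_mem_right _ (P.asIdeal.mul_mem_right _ h)))
      have h2 : ι (X 1) ∉ P.asIdeal := fun h => hn (P.asIdeal.mul_mem_right _
        (P.asIdeal.mul_mem_right _ (P.asIdeal.mul_mem_left _ h)))
      have h3 : ι (X 0 + X 1) ∉ P.asIdeal := fun h => hn (P.asIdeal.mul_mem_right _
        (P.asIdeal.mul_mem_left _ h))
      have h4 : ι f ∉ P.asIdeal := fun h => hn (P.asIdeal.mul_mem_left _ h)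
      simp only [hEdef, bdry]
      rw [← map_add, ordAt_of_notMem P h1, ordAt_of_notMem P h2, ordAt_of_notMem P h3,
        ordAt_of_notMem P h4]
      simp)
  obtain ⟨ψ, hψ, hψ1⟩ := exists_of_splitsAt hs g hg (fun P hP => (hgE P hP).le)
  -- choose the level
  set q : ℝ := (p : ℝ) ^ (e0 * j) with hq
  have hqpos : 0 < q := by positivity
  have hqt : 0 < q * t - 1 := by
    have := (div_lt_iff₀ hqpos).mp hlt
    linarith
  obtain ⟨l', hl'⟩ := pow_unbounded_of_one_lt ((t : ℝ) / (q * t - 1)) hpR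
  set n := e' * (j + l') with hn
  have hnj : j ≤ n := by
    calc j ≤ j + l' := by omega
      _ = 1 * (j + l') := by ring
      _ ≤ e' * (j + l') := Nat.mul_le_mul_right _ he'
  have hnl : l' ≤ n - j := by
    have : 1 * (j + l') ≤ e' * (j + l') := Nat.mul_le_mul_right _ he'
    omega
  obtain ⟨B, hB⟩ := exists_A p c e0 a ha n
  obtain ⟨C, hC⟩ := exists_A p c e0 a ha (n - j)
  set M := p ^ (e0 * (n - j)) with hM
  have hMge : ((t : ℝ) / (q * t - 1)) ≤ M := by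
    refine hl'.le.trans ?_
    rw [hM]
    push_cast
    apply pow_le_pow_right₀ hpR.le
    calc l' ≤ n - j := hnl
      _ = 1 * (n - j) := by ring
      _ ≤ e0 * (n - j) := Nat.mul_le_mul_right _ he0
  have hMt : (t : ℝ) ≤ M * (q * t - 1) := by
    rwa [div_le_iff₀ hqt] at hMge
  have hQM : p ^ (e0 * n) = p ^ (e0 * j) * M := by
    rw [hM, ← pow_add, ← mul_add]
    congr 2
    omega
  have hBAC : ∀ i, B i = A i * M + C i := by
    intro i
    have h1 : (B i : ℚ) = (A i * M + C i : ℕ) := by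
      push_cast
      rw [hB i, hA i, hC i]
      have h2 : ((p : ℚ) ^ (e0 * n)) = (p : ℚ) ^ (e0 * j) * M := by exact_mod_cast hQM
      have h3 : ((p : ℚ) ^ (e0 * (n - j))) = M := by rw [hM]; push_cast; rfl
      rw [h2, h3]
      ring
    exact_mod_cast h1
  set J := e0 * (j + l') with hJ
  have hQ : (p ^ e') ^ J = p ^ (e0 * n) := by
    rw [← pow_mul, hJ, hn]
    congr 1
    ring
  set s := ∑ i ∈ Finset.range J, (p ^ e') ^ i with hs'
  have hgeom : ((s : ℕ) : ℝ) * ((p : ℝ) ^ e' - 1) = (p : ℝ) ^ (e0 * n) - 1 := by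
    rw [hs']
    push_cast
    rw [geom_sum_mul]
    congr 1
    exact_mod_cast hQ
  -- divisibility
  have hdvd : ι (X 0) ^ B 0 * ι (X 1) ^ B 1 * ι (X 0 + X 1) ^ B 2 * ι f ^ M ∣ g ^ s := by
    apply dvd_of_ordAt_le
    · exact mul_ne_zero (mul_ne_zero (mul_ne_zero (pow_ne_zero _ hx) (pow_ne_zero _ hy))
        (pow_ne_zero _ hxy)) (pow_ne_zero _ hf')
    · intro P hP
      rw [ordAt_gen P hP hx hy hxy hf' B M, ordAt_pow P hg, hgE P hP]
      have hB' : ∀ i, (B i : ℝ) = ((p : ℝ) ^ (e0 * n) - 1) * c i := by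
        intro i
        have := congrArg (fun q : ℚ => (q : ℝ)) (hB i)
        simpa using this
      have h1 : ((p : ℝ) ^ e' - 1) *
          (bdry c (ι (X 0)) (ι (X 1)) P + t * (ordAt P (ι f)).toNat) ≤ E P := Nat.le_ceil _
      rw [bdry, ← map_add] at h1
      generalize (ordAt P (ι (X 0))).toNat = ox at *
      generalize (ordAt P (ι (X 1))).toNat = oy at *
      generalize (ordAt P (ι (X 0 + X 1))).toNat = oz at *
      generalize (ordAt P (ι f)).toNat = o at *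
      generalize E P = EP at *
      have h2 : ((B 0 * ox + B 1 * oy + B 2 * oz + M * o : ℕ) : ℝ) ≤ ((s * EP : ℕ) : ℝ) := by
        push_cast
        have h3 : ((s : ℕ) : ℝ) * (((p : ℝ) ^ e' - 1) * (c 0 * ox + c 1 * oy + c 2 * oz + t * o))
            ≤ s * EP := mul_le_mul_of_nonneg_left h1 (Nat.cast_nonneg _)
        refine le_trans ?_ h3
        rw [← mul_assoc, hgeom, hB' 0, hB' 1, hB' 2]
        have h4 : (p : ℝ) ^ (e0 * n) = q * M := by
          rw [hq]; exact_mod_cast hQM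
        have h5 : (M : ℝ) ≤ ((p : ℝ) ^ (e0 * n) - 1) * t := by
          rw [h4]; nlinarith
        have h6 : (M : ℝ) * o ≤ ((p : ℝ) ^ (e0 * n) - 1) * t * o :=
          mul_le_mul_of_nonneg_right h5 (Nat.cast_nonneg _)
        nlinarith
      have h3 : B 0 * ox + B 1 * oy + B 2 * oz + M * o ≤ s * EP := by exact_mod_cast h2
      exact_mod_cast h3
  obtain ⟨w, hw⟩ := hdvd
  obtain ⟨u, v, huv⟩ := hmem
  have hpoly : (X 0 ^ B 0 * X 1 ^ B 1 * (X 0 + X 1) ^ B 2 * f ^ M : MvPolynomial (Fin 2) k) =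
      (X 0 ^ p ^ (e0 * n) * u ^ M + X 1 ^ p ^ (e0 * n) * v ^ M) *
        (X 0 ^ C 0 * X 1 ^ C 1 * (X 0 + X 1) ^ C 2) := by
    have h1 : (X 0 ^ B 0 * X 1 ^ B 1 * (X 0 + X 1) ^ B 2 * f ^ M : MvPolynomial (Fin 2) k) =
        (X 0 ^ A 0 * X 1 ^ A 1 * (X 0 + X 1) ^ A 2 * f) ^ M *
        (X 0 ^ C 0 * X 1 ^ C 1 * (X 0 + X 1) ^ C 2) := by
      rw [hBAC 0, hBAC 1, hBAC 2]
      ring
    rw [h1, huv, hM, add_pow_char_pow, mul_pow, mul_pow, ← hM, ← pow_mul, ← pow_mul, ← hQM]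
  have hcone := congrArg ι hpoly
  simp only [map_mul, map_pow, map_add] at hcone
  rw [map_add, hcone] at hw
  refine no_functional (q := p ^ e') (IsLocalRing.maximalIdeal (ConeRing k))
    (IsLocalRing.maximalIdeal.isMaximal _).ne_top ψ hψ g hψ1 J (ι (X 0)) (ι (X 1))
    (X_mem_max 0) (X_mem_max 1)
    (ι u ^ M * (ι (X 0) ^ C 0 * ι (X 1) ^ C 1 * (ι (X 0) + ι (X 1)) ^ C 2) * w)
    (ι v ^ M * (ι (X 0) ^ C 0 * ι (X 1) ^ C 1 * (ι (X 0) + ι (X 1)) ^ C 2) * w) ?_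
  rw [← hs', hw, hQ]
  ring

end Pool.Agent.MP98601e
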